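import Pool.Agent.H57.TB.Indep

set_option autoImplicit false

/-! The curve `f₀ ⋯ f_r = h ^ p`: irreducibility and independence of the factors. -/

open Polynomial

namespace Pool.Agent.H57.TB

open Pool.Agent.H322R2

/-- the function field -/
theorem exists_L (P : MvPolynomial (Fin 2) ℚ) (hP : Irreducible P) :
    ∃ (L : Type) (_ : Field L) (_ : Algebra ℚ L) (π : MvPolynomial (Fin 2) ℚ →ₐ[ℚ] L),
      (∀ w, π w = 0 ↔ P ∣ w) ∧ (∀ z : L, ∃ w1 w2, π w2 ≠ 0 ∧ π w2 * z = π w1) := by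
  have hprime : Prime P := hP.prime
  have hI : (Ideal.span {P}).IsPrime := (Ideal.span_singleton_prime hP.ne_zero).2 hprime
  let R := MvPolynomial (Fin 2) ℚ ⧸ Ideal.span {P}
  have hdom : IsDomain R := Ideal.Quotient.isDomain _
  let L := FractionRing R
  let _ : Algebra ℚ L := ((algebraMap R L).comp (algebraMap ℚ R)).toAlgebra
  obtain ⟨π, hπ⟩ : ∃ π : MvPolynomial (Fin 2) ℚ →ₐ[ℚ] L, ∀ w, π w
      = algebraMap R L (Ideal.Quotient.mk _ w) :=
    ⟨{ toRingHom := (algebraMap R L).comp (Ideal.Quotient.mk _)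
       commutes' := fun q => rfl }, fun w => rfl⟩
  refine ⟨L, inferInstance, inferInstance, π, ?_, ?_⟩
  · intro w
    rw [hπ, IsFractionRing.to_map_eq_zero_iff, Ideal.Quotient.eq_zero_iff_mem,
      Ideal.mem_span_singleton]
  · intro z
    obtain ⟨a, s, hs, hz⟩ := IsFractionRing.div_surjective (A := R) z
    obtain ⟨w1, rfl⟩ := Ideal.Quotient.mk_surjective a
    obtain ⟨w2, rfl⟩ := Ideal.Quotient.mk_surjective s
    have hne : π w2 ≠ 0 := by
      rw [hπ]
      exact IsFractionRing.to_map_ne_zero_of_mem_nonZeroDivisors hs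
    refine ⟨w1, w2, hne, ?_⟩
    rw [← hz, ← hπ, ← hπ]
    exact mul_div_cancel₀ _ hne

lemma supp_lt (G : MvPolynomial (Fin 2) ℚ) (k : Fin 2 →₀ ℕ) (hk : k ∈ G.support) :
    k 0 ≤ (toB ℚ G).natDegree := by
  apply le_natDegree_of_ne_zero
  intro h0
  have h1 := coeff_toB ℚ G k
  rw [h0, coeff_zero] at h1
  exact (MvPolynomial.mem_support_iff.1 hk) h1.symm

namespace Dat

variable {p q m r : ℕ} {b : Fin (r + 1) → ℕ} {f : Fin (r + 1) → MvPolynomial (Fin 2) ℚ} {h : ℚ[X]}

lemma place (H : Dat p q m r b f h) {L : Type} [Field L] [Algebra ℚ L]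
    (π : MvPolynomial (Fin 2) ℚ →ₐ[ℚ] L) (hπ : π (eqn p f h) = 0)
    (htr : Transcendental ℚ (π (MvPolynomial.X 1))) :
    ∃ (A : ValuationSubring L) (t : L), (∀ c : ℚ, algebraMap ℚ L c ∈ A) ∧
      ¬ (π (MvPolynomial.X 0) ∈ A ∧ π (MvPolynomial.X 1) ∈ A) ∧ t ≠ 0 ∧ A.valuation t < 1 ∧
      A.valuation (π (MvPolynomial.X 0) * t ^ (p * q) - 1) < 1 ∧
      A.valuation (π (MvPolynomial.X 1) * t ^ m - 1) < 1 := by
  obtain ⟨A, hQ, hA⟩ := Pool.Agent.Y68.Place.exists_good htr
  have hA' : ¬ (π (MvPolynomial.X 0) ∈ A ∧ π (MvPolynomial.X 1) ∈ A) := fun h => hA h.2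
  have hm := H.m_pos
  have hn := H.n_pos
  have hrel : eqn p f h = MvPolynomial.X 0 ^ m - MvPolynomial.X 1 ^ (p * q) +
      (eqn p f h - (MvPolynomial.X 0 ^ m - MvPolynomial.X 1 ^ (p * q))) := by ring
  obtain ⟨h1, h2, h3, h4⟩ := val_pow_eq π m (p * q) hm hn _ H.rest (by rw [← hrel]; exact hπ)
    A hQ hA'
  obtain ⟨t, ht0, ht1, htx, hty⟩ := exists_t m (p * q) hm hn H.hmn A _ _ h1 h2 (by
    have h5 : π (MvPolynomial.X 0) ^ m - π (MvPolynomial.X 1) ^ (p * q) =
        -π (eqn p f h - (MvPolynomial.X 0 ^ m - MvPolynomial.X 1 ^ (p * q))) := by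
      rw [map_sub, hπ, map_sub, map_pow, map_pow]
      ring
    rw [h5, Valuation.map_neg, map_pow]
    exact h4)
  exact ⟨A, t, hQ, hA', ht0, ht1, htx, hty⟩

lemma irr (H : Dat p q m r b f h) : Irreducible (eqn p f h) := by
  have hm := H.m_pos
  have hF0 : eqn p f h ≠ 0 := by
    intro h0
    have h1 := H.toB_F.2
    rw [h0, map_zero, natDegree_zero] at h1
    omega
  have hFu : ¬ IsUnit (eqn p f h) := by
    intro hu
    have h1 : IsUnit (toB ℚ (eqn p f h)) := hu.map (toB ℚ)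
    have h2 := natDegree_eq_zero_of_isUnit h1
    rw [H.toB_F.2] at h2
    omega
  obtain ⟨P, hP, W, hW⟩ := WfDvdMonoid.exists_irreducible_factor hFu hF0
  obtain ⟨L, _, _, π, hker, hsurj⟩ := exists_L P hP
  have hP0 : toB ℚ P ≠ 0 := by
    rw [Ne, EmbeddingLike.map_eq_zero_iff]
    exact hP.ne_zero
  have hW0 : toB ℚ W ≠ 0 := by
    rw [Ne, EmbeddingLike.map_eq_zero_iff]
    rintro rfl
    rw [mul_zero] at hW
    exact hF0 hW
  have hprod : toB ℚ (eqn p f h) = toB ℚ P * toB ℚ W := by rw [hW, map_mul]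
  have hlc : (toB ℚ P).leadingCoeff * (toB ℚ W).leadingCoeff = 1 := by
    rw [← leadingCoeff_mul, ← hprod]
    exact H.toB_F.1
  have hunit : ∀ w w' : ℚ[X][X], w.natDegree = 0 → w.leadingCoeff * w'.leadingCoeff = 1 →
      IsUnit w := by
    intro w w' hw hww
    rw [eq_C_of_natDegree_eq_zero hw, isUnit_C]
    apply IsUnit.of_mul_eq_one w'.leadingCoeff
    have h1 : w.leadingCoeff = w.coeff 0 := by rw [leadingCoeff, hw]
    rw [← h1, hww]
  have hPd : 1 ≤ (toB ℚ P).natDegree := by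
    by_contra hcon
    have h1 := hunit _ _ (by omega) hlc
    have h2 := h1.map (toB ℚ).symm
    rw [AlgEquiv.symm_apply_apply] at h2
    exact hP.not_isUnit h2
  have hπ : π (eqn p f h) = 0 := by rw [hker]; exact ⟨W, hW⟩
  obtain ⟨A, t, hQ, hA, ht0, ht1, htx, hty⟩ := H.place π hπ (trans_y π P hPd hker)
  have hPm : m ≤ (toB ℚ P).natDegree := by
    by_contra hcon
    rw [not_le] at hcon
    obtain ⟨k, -, -, h2⟩ := val_reduced π m (p * q) hm H.hmn A hQ t ht0 ht1 htx hty P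
      (fun k hk => lt_of_le_of_lt (supp_lt P k hk) hcon) hP.ne_zero
    rw [(hker P).2 dvd_rfl, zero_mul, map_zero] at h2
    exact zero_ne_one h2
  have hdeg := congrArg natDegree hprod
  rw [natDegree_mul hP0 hW0, H.toB_F.2] at hdeg
  have hWu : IsUnit W := by
    have h1 := hunit (toB ℚ W) (toB ℚ P) (by omega) (by rw [mul_comm]; exact hlc)
    have h2 := h1.map (toB ℚ).symm
    rwa [AlgEquiv.symm_apply_apply] at h2
  rw [hW]
  exact (irreducible_mul_isUnit hWu).2 hP

/-- The factors are independent modulo `p`-th powers. -/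
theorem indep (H : Dat p q m r b f h)
    (hcop : ∀ i j, i ≠ j → (1 : MvPolynomial (Fin 2) ℚ) ∈ Ideal.span
      ({f i, f j, aeval (MvPolynomial.X 1 : MvPolynomial (Fin 2) ℚ) h} :
        Set (MvPolynomial (Fin 2) ℚ)))
    (hns : (1 : MvPolynomial (Fin 2) ℚ) ∈ Ideal.span
      ({eqn p f h, MvPolynomial.pderiv 0 (eqn p f h), MvPolynomial.pderiv 1 (eqn p f h)} :
        Set (MvPolynomial (Fin 2) ℚ)))
    {L : Type} [Field L] [Algebra ℚ L] (π : MvPolynomial (Fin 2) ℚ →ₐ[ℚ] L)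
    (hker : ∀ w, π w = 0 ↔ eqn p f h ∣ w)
    (hsurj : ∀ z : L, ∃ w1 w2, π w2 ≠ 0 ∧ π w2 * z = π w1)
    (k : Fin (r + 1) → ℕ) (j₀ : Fin (r + 1)) (hj : k j₀ = 0) (hk : ∀ i, k i < p)
    (hk1 : ∃ i, k i ≠ 0) (c : ℚ) (hc : c ≠ 0) (z : L) :
    z ^ p ≠ algebraMap ℚ L c * ∏ i, π (f i) ^ k i := by
  classical
  intro hz
  have hm := H.m_pos
  have hn := H.n_pos
  have hp := H.hp
  have hF1 : 1 ≤ (toB ℚ (eqn p f h)).natDegree := by rw [H.toB_F.2]; exact hm
  have hπF : π (eqn p f h) = 0 := (hker _).2 dvd_rfl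
  obtain ⟨A, t, hQ, hA, ht0, ht1, htx, hty⟩ := H.place π hπF (trans_y π _ hF1 hker)
  -- values of the factors
  have hvf : ∀ i, A.valuation (π (f i)) * A.valuation t ^ (p * q * b i) = 1 := by
    intro i
    have h1 := val_lead π m (p * q) A hQ t ht0 ht1 htx hty (b i) (f i) (H.hf1 i) (H.hf2 i)
    have h2 := val_of_unit A h1
    rwa [map_mul, map_pow] at h2
  have hfi : ∀ i, π (f i) ≠ 0 := by
    intro i h0
    have h1 := hvf i
    rw [h0, map_zero, zero_mul] at h1
    exact zero_ne_one h1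
  have hvt : A.valuation t ≠ 0 := (Valuation.ne_zero_iff _).2 ht0
  -- the relation
  obtain ⟨Hh, hHh⟩ : ∃ Hh, Hh = aeval (MvPolynomial.X 1 : MvPolynomial (Fin 2) ℚ) h := ⟨_, rfl⟩
  have hrel : ∏ i, π (f i) = π Hh ^ p := by
    have h1 : π (∏ i, f i - Hh ^ p) = 0 := by rw [hHh]; exact hπF
    rw [map_sub, map_prod, map_pow, sub_eq_zero] at h1
    exact h1
  have hHh0 : π Hh ≠ 0 := by
    intro h0
    rw [h0, zero_pow (by omega)] at hrel
    exact (Finset.prod_ne_zero_iff.2 fun i _ => hfi i) hrel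
  -- `z` is a polynomial
  have hzz : ∃ w, π w = z ^ p := by
    refine ⟨MvPolynomial.C c * ∏ i, f i ^ k i, ?_⟩
    rw [hz, map_mul, map_prod, MvPolynomial.algHom_C]
    simp only [map_pow]
  have hnorm := normal π (eqn p f h) H.toB_F.1 H.toB_F' hker hsurj hns
  obtain ⟨G1, hG1⟩ := hnorm z p hp hzz
  obtain ⟨G, hG⟩ : ∃ G, G = (toB ℚ).symm (toB ℚ G1 %ₘ toB ℚ (eqn p f h)) := ⟨_, rfl⟩
  have hGB : toB ℚ G = toB ℚ G1 %ₘ toB ℚ (eqn p f h) := by rw [hG, AlgEquiv.apply_symm_apply]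
  have hπG : π G = z := by
    rw [← hG1]
    have h1 : G1 = G + eqn p f h * (toB ℚ).symm (toB ℚ G1 /ₘ toB ℚ (eqn p f h)) := by
      apply (toB ℚ).injective
      rw [map_add, map_mul, hGB, AlgEquiv.apply_symm_apply, modByMonic_add_div]
    conv_rhs => rw [h1, map_add, map_mul, hπF, zero_mul, add_zero]
  have hGdeg : (toB ℚ G).natDegree < m := by
    rw [hGB]
    have h1 := natDegree_modByMonic_lt (toB ℚ G1) H.toB_F.1 (by
      intro h2
      rw [h2, natDegree_one] at hF1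
      omega)
    rwa [H.toB_F.2] at h1
  have hz0 : z ≠ 0 := by
    rintro rfl
    rw [zero_pow (by omega)] at hz
    have h1 : algebraMap ℚ L c ≠ 0 := (_root_.map_ne_zero _).2 hc
    exact mul_ne_zero h1 (Finset.prod_ne_zero_iff.2 fun i _ => pow_ne_zero _ (hfi i)) hz.symm
  have hG0 : G ≠ 0 := by
    rintro rfl
    rw [map_zero] at hπG
    exact hz0 hπG.symm
  -- the weight of `G`
  obtain ⟨kG, -, hkG2, hkG3⟩ := val_reduced π m (p * q) hm H.hmn A hQ t ht0 ht1 htx hty G
    (fun k hk => lt_of_le_of_lt (supp_lt G k hk) hGdeg) hG0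
  obtain ⟨K, hK⟩ : ∃ K, K = ∑ i, k i * b i := ⟨_, rfl⟩
  have hwt : wt m (p * q) kG = q * K := by
    rw [hπG, map_mul, map_pow] at hkG3
    have h1 : A.valuation z ^ p * A.valuation t ^ (p * q * K) = 1 := by
      rw [← map_pow, hz, map_mul, val_rat A hQ hc, one_mul, map_prod, hK, Finset.mul_sum,
        ← Finset.prod_pow_eq_pow_sum, ← Finset.prod_mul_distrib]
      apply Finset.prod_eq_one
      intro i _
      rw [map_pow, mul_left_comm, mul_comm (k i), pow_mul, ← mul_pow, hvf i, one_pow]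
    have h2 : A.valuation z ^ p * A.valuation t ^ (p * wt m (p * q) kG) = 1 := by
      rw [mul_comm p, pow_mul, ← mul_pow, hkG3, one_pow]
    have h3 : A.valuation t ^ (p * wt m (p * q) kG) = A.valuation t ^ (p * q * K) := by
      have h4 : A.valuation z ^ p ≠ 0 := pow_ne_zero _ ((Valuation.ne_zero_iff _).2 hz0)
      exact mul_left_cancel₀ h4 (h2.trans h1.symm)
    have h4 : p * wt m (p * q) kG = p * q * K :=
      pow_right_injective₀ (zero_lt_iff.2 hvt) ht1.ne h3
    rw [mul_assoc] at h4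
    exact Nat.eq_of_mul_eq_mul_left hp h4
  -- divisibility modulo powers of `h`
  have hdiv : ∀ s i, s ≤ k i → rd h s (f i) ∣ rd h s G := by
    intro s i hs
    obtain ⟨gi, hgi⟩ : ∃ gi, gi = ∏ j ∈ Finset.univ.erase i, f j := ⟨_, rfl⟩
    have hfg : f i * gi = ∏ j, f j := by
      rw [hgi]; exact Finset.mul_prod_erase _ _ (Finset.mem_univ i)
    have hcp : IsCoprime (rd h s (f i)) (rd h s gi) := by
      rw [hgi, map_prod]
      apply IsCoprime.prod_right
      intro j hjj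
      exact rd_coprime h s _ _ (hcop i j (Finset.ne_of_mem_erase hjj).symm)
    have hfg' : π (f i) * π gi = π Hh ^ p := by rw [← map_mul, hfg, map_prod, hrel]
    have hgi0 : π gi ≠ 0 := by
      intro h0
      rw [h0, mul_zero] at hfg'
      exact pow_ne_zero _ hHh0 hfg'.symm
    obtain ⟨W, hW⟩ := hnorm (z * π gi ^ k i / π Hh ^ k i) p hp (by
      refine ⟨MvPolynomial.C c * (∏ j ∈ Finset.univ.erase i, f j ^ k j) *
        gi ^ (k i * (p - 1)), ?_⟩
      rw [div_pow, mul_pow, ← pow_mul (π Hh), mul_comm (k i) p, pow_mul (π Hh), ← hfg', hz,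
        ← Finset.mul_prod_erase _ _ (Finset.mem_univ i), map_mul, map_mul, map_prod, map_pow,
        MvPolynomial.algHom_C, mul_pow, ← pow_mul (π gi)]
      simp only [map_pow]
      have h1 : k i * p = k i * (p - 1) + k i := by
        rw [Nat.mul_sub, mul_one, Nat.sub_add_cancel (Nat.le_mul_of_pos_right _ hp)]
      rw [h1, pow_add]
      have h2 : π (f i) ^ k i ≠ 0 := pow_ne_zero _ (hfi i)
      have h3 : π gi ^ k i ≠ 0 := pow_ne_zero _ hgi0
      field_simp)
    have h1 : π (G * gi ^ k i - Hh ^ k i * W) = 0 := by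
      rw [map_sub, map_mul, map_mul, map_pow, map_pow, hW, hπG]
      field_simp
      ring
    obtain ⟨V, hV⟩ := (hker _).1 h1
    have h2 : G * gi ^ k i = f i * (gi * V) + Hh ^ k i * W - Hh ^ p * V := by
      have h3 : eqn p f h = f i * gi - Hh ^ p := by rw [eqn, hfg, hHh]
      rw [h3] at hV
      linear_combination hV
    have h3 : rd h s (Hh ^ k i) = 0 := by rw [hHh]; exact rd_pow_zero h s _ hs
    have h4 : rd h s (Hh ^ p) = 0 := by rw [hHh]; exact rd_pow_zero h s _ (hs.trans (hk i).le)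
    have h5 := congrArg (rd h s) h2
    rw [map_mul, map_sub, map_add, map_mul, map_mul (rd h s) (Hh ^ k i), h3,
      map_mul (rd h s) (Hh ^ p), h4, zero_mul, zero_mul, add_zero, sub_zero, map_pow] at h5
    exact (hcp.pow_right (n := k i)).dvd_of_dvd_mul_right ⟨_, h5⟩
  -- counting
  obtain ⟨e, he⟩ : ∃ e, e = (toB ℚ G).natDegree := ⟨_, rfl⟩
  have hex : ∃ s, ∑ i ∈ Finset.univ.filter (fun i => s + 1 ≤ k i), b i ≤ e := by
    refine ⟨p, ?_⟩
    rw [Finset.filter_false_of_mem, Finset.sum_empty]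
    · exact Nat.zero_le _
    · intro i _
      have := hk i
      omega
  obtain ⟨s, hs1, hs2⟩ : ∃ s, (∑ i ∈ Finset.univ.filter (fun i => s + 1 ≤ k i), b i ≤ e) ∧
      ∀ s' < s, e < ∑ i ∈ Finset.univ.filter (fun i => s' + 1 ≤ k i), b i := by
    refine ⟨Nat.find hex, Nat.find_spec hex, fun s' hs' => ?_⟩
    exact not_le.1 (Nat.find_min hex hs')
  have hsp : s + 1 ≤ p := by
    by_contra hcon
    have h1 := hs2 (p - 1) (by omega)
    rw [Finset.filter_false_of_mem, Finset.sum_empty] at h1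
    · exact absurd h1 (Nat.not_lt_zero _)
    · intro i _
      have := hk i
      omega
  have hGe : (toB ℚ G).coeff e ≠ 0 := by
    rw [he]
    intro h0
    have h1 : (toB ℚ G).leadingCoeff = 0 := h0
    rw [leadingCoeff_eq_zero, EmbeddingLike.map_eq_zero_iff] at h1
    exact hG0 h1
  have hdvd : h ^ s ∣ (toB ℚ G).coeff e := by
    rcases Nat.eq_zero_or_pos s with h0 | h0
    · rw [h0, pow_zero]; exact one_dvd _
    · apply rd_zero h s (Finset.univ.filter fun i => s ≤ k i) f (fun i => (H.toB_f i).1) G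
      · rw [← he]
        have h1 := hs2 (s - 1) (by omega)
        rw [Nat.sub_add_cancel h0] at h1
        refine h1.trans_eq ?_
        apply Finset.sum_congr rfl
        intro i _
        exact (H.toB_f i).2.symm
      · intro i hi
        exact hdiv s i (Finset.mem_filter.1 hi).2
      · intro i _ j _ hij
        exact rd_coprime h s _ _ (hcop i j hij)
  have hdegs : q * s ≤ ((toB ℚ G).coeff e).natDegree := by
    have h1 := natDegree_le_of_dvd hdvd hGe
    rw [natDegree_pow, H.hhq, mul_comm] at h1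
    exact h1
  have hle : p * e + m * s ≤ K := by
    have h1 : Finsupp.single 0 e + Finsupp.single 1 ((toB ℚ G).coeff e).natDegree ∈ G.support := by
      rw [MvPolynomial.mem_support_iff, ← coeff_toB']
      intro h0
      exact hGe (leadingCoeff_eq_zero.1 h0)
    have h2 := hkG2 _ h1
    rw [hwt, wt] at h2
    simp at h2
    have h3 : q * (p * e + m * s) ≤ q * K := by
      calc q * (p * e + m * s) = p * q * e + m * (q * s) := by ring
        _ ≤ p * q * e + m * ((toB ℚ G).coeff e).natDegree :=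
            Nat.add_le_add_left (Nat.mul_le_mul_left _ hdegs) _
        _ ≤ q * K := h2
    exact Nat.le_of_mul_le_mul_left h3 H.hq
  obtain ⟨i, hi⟩ := hk1
  rw [hK] at hle
  exact hi (count r p m e s b k H.hm H.hb hsp j₀ hj hk hs1 hle i)

end Dat

end Pool.Agent.H57.TB
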