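import Pool.Agent.H57.TB.Main
import Pool.Agent.H57.TB.Indep2

set_option autoImplicit false

/-! Integer points on the curves `f₀ ⋯ f_r = h ^ p`. -/

open Polynomial

namespace Pool.Agent.H57.TB

open Pool.Agent.H322R2 Pool.Agent.K1H93.TG

/-- the polynomial `h(y)` -/
noncomputable def hY (h : ℤ[X]) : MvPolynomial (Fin 2) ℤ :=
  aeval (MvPolynomial.X 1 : MvPolynomial (Fin 2) ℤ) h

lemma map_hY (h : ℤ[X]) : MvPolynomial.map (Int.castRingHom ℚ) (hY h) =
    aeval (MvPolynomial.X 1 : MvPolynomial (Fin 2) ℚ) (h.map (Int.castRingHom ℚ)) := by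
  rw [hY, aeval_def, aeval_def, eval₂_map, hom_eval₂, MvPolynomial.map_X]
  congr 1
  exact RingHom.ext_int _ _

lemma eval_hY (h : ℤ[X]) (x y : ℤ) : MvPolynomial.eval ![x, y] (hY h) = h.eval y := by
  rw [hY, aeval_def, hom_eval₂, MvPolynomial.eval_X, eval₂_eq_eval_map]
  have h1 : (MvPolynomial.eval ![x, y]).comp (algebraMap ℤ (MvPolynomial (Fin 2) ℤ)) =
      RingHom.id ℤ := RingHom.ext_int _ _
  rw [h1, Polynomial.map_id]
  rfl

/-- The ideal condition at the good primes. -/
lemma span_top {r : ℕ} (f : Fin (r + 1) → MvPolynomial (Fin 2) ℤ) (H F : MvPolynomial (Fin 2) ℤ)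
    (e : ℤ) (he : ∀ i j, i ≠ j → MvPolynomial.C e ∈ Ideal.span ({f i, f j, H} :
      Set (MvPolynomial (Fin 2) ℤ))) (l : ℕ) (hl : l.Prime) (hle : ¬ (l : ℤ) ∣ e)
    (i : Fin (r + 1)) :
    Ideal.span ({MvPolynomial.C (l : ℤ), F, f i, ∏ j ∈ Finset.univ.erase i, f j, H} :
      Set (MvPolynomial (Fin 2) ℤ)) = ⊤ := by
  classical
  obtain ⟨J, hJ⟩ : ∃ J, J = Ideal.span ({MvPolynomial.C (l : ℤ), F, f i,
    ∏ j ∈ Finset.univ.erase i, f j, H} : Set (MvPolynomial (Fin 2) ℤ)) := ⟨_, rfl⟩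
  rw [← hJ]
  have hmem : ∀ z ∈ ({MvPolynomial.C (l : ℤ), F, f i, ∏ j ∈ Finset.univ.erase i, f j, H} :
      Set (MvPolynomial (Fin 2) ℤ)), Ideal.Quotient.mk J z = 0 := by
    intro z hz
    rw [Ideal.Quotient.eq_zero_iff_mem, hJ]
    exact Ideal.subset_span hz
  have hl0 : Ideal.Quotient.mk J (MvPolynomial.C (l : ℤ)) = 0 := hmem _ (by simp)
  have hfi : Ideal.Quotient.mk J (f i) = 0 := hmem _ (by simp)
  have hH : Ideal.Quotient.mk J H = 0 := hmem _ (by simp)
  have hg : Ideal.Quotient.mk J (∏ j ∈ Finset.univ.erase i, f j) = 0 := hmem _ (by simp)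
  -- `e` is a unit
  have hcop : IsCoprime (l : ℤ) e :=
    ((Nat.prime_iff_prime_int.1 hl).coprime_iff_not_dvd).2 hle
  obtain ⟨u, v, huv⟩ := hcop
  have heu : Ideal.Quotient.mk J (MvPolynomial.C v) * Ideal.Quotient.mk J (MvPolynomial.C e) =
      1 := by
    rw [← map_mul, ← MvPolynomial.C_mul]
    have h1 : v * e = 1 - u * l := by linarith
    rw [h1, MvPolynomial.C_sub, MvPolynomial.C_mul, map_sub, map_mul, hl0, mul_zero, sub_zero,
      MvPolynomial.C_1, map_one]
  have hunit : ∀ j ∈ Finset.univ.erase i, IsUnit (Ideal.Quotient.mk J (f j)) := by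
    intro j hj
    have h1 := he i j (Finset.ne_of_mem_erase hj).symm
    rw [Ideal.mem_span_insert] at h1
    obtain ⟨a, w, hw, h2⟩ := h1
    rw [Ideal.mem_span_pair] at hw
    obtain ⟨c, d, h3⟩ := hw
    have h4 : Ideal.Quotient.mk J (MvPolynomial.C e) =
        Ideal.Quotient.mk J c * Ideal.Quotient.mk J (f j) := by
      rw [h2, ← h3, map_add, map_add, map_mul, map_mul, map_mul, hfi, hH, mul_zero, mul_zero,
        zero_add, add_zero]
    rw [h4, ← mul_assoc] at heu
    exact IsUnit.of_mul_eq_one _ (by rw [mul_comm]; exact heu)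
  have h5 : IsUnit (Ideal.Quotient.mk J (∏ j ∈ Finset.univ.erase i, f j)) := by
    rw [map_prod, IsUnit.prod_iff]
    exact hunit
  rw [hg] at h5
  have h6 : Subsingleton (MvPolynomial (Fin 2) ℤ ⧸ J) := subsingleton_of_zero_eq_one
    (isUnit_zero_iff.1 h5)
  exact Ideal.Quotient.subsingleton_iff.1 h6

/-- the length in terms of the height -/
lemma len_le_of_box (f : MvPolynomial (Fin 2) ℤ) (N A B : ℕ) (hN : ∀ k, (f.coeff k).natAbs ≤ N)
    (hk : ∀ k ∈ f.support, k 0 ≤ A ∧ k 1 ≤ B) : len f ≤ (A + 1) * (B + 1) * N := by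
  classical
  rw [len]
  refine (Finset.sum_le_card_nsmul _ _ N fun k _ => hN k).trans ?_
  rw [smul_eq_mul]
  apply Nat.mul_le_mul_right
  rw [← Finset.card_range (A + 1), ← Finset.card_range (B + 1), ← Finset.card_product]
  apply Finset.card_le_card_of_injOn (fun k => (k 0, k 1))
  · intro k hk'
    have := hk k hk'
    simp only [Finset.coe_product, Set.mem_prod, Finset.coe_range, Set.mem_Iio]
    omega
  · intro k _ l _ hkl
    simp only [Prod.mk.injEq] at hkl
    ext i
    fin_cases i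
    · exact hkl.1
    · exact hkl.2

lemma len_hY (h : ℤ[X]) (N : ℕ) (hN : ∀ j, (h.coeff j).natAbs ≤ N) :
    len (hY h) ≤ (h.natDegree + 1) * N := by
  classical
  rw [hY, aeval_eq_sum_range]
  have h1 : ∀ (s : Finset ℕ) (g : ℕ → MvPolynomial (Fin 2) ℤ) , (∀ i ∈ s, len (g i) ≤ N) →
      len (∑ i ∈ s, g i) ≤ s.card * N := by
    intro s g hg
    induction s using Finset.induction_on with
    | empty => simp [len]
    | insert i s hi ih =>
      rw [Finset.sum_insert hi, Finset.card_insert_of_notMem hi, add_mul, one_mul, add_comm _ N]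
      exact (len_add_le _ _).trans (Nat.add_le_add (hg i (Finset.mem_insert_self i s))
        (ih fun j hj => hg j (Finset.mem_insert_of_mem hj)))
  refine (h1 _ _ fun i _ => ?_).trans ?_
  · rw [MvPolynomial.smul_eq_C_mul]
    refine (Pool.Agent.W257.len_mul_le _ _).trans ?_
    have h2 : len (MvPolynomial.X 1 ^ i : MvPolynomial (Fin 2) ℤ) ≤ 1 := by
      have := Pool.Agent.W257.len_pow_le (MvPolynomial.X 1) i 1 Pool.Agent.W257.len_X1
      rwa [one_pow] at this
    calc _ ≤ (h.coeff i).natAbs * 1 := Nat.mul_le_mul (Pool.Agent.W257.len_C _) h2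
      _ ≤ N := by rw [mul_one]; exact hN i
  · rw [Finset.card_range]

theorem family (p q m : ℕ) (hp : p.Prime) (hq : 1 ≤ q) (hmn : Nat.Coprime m (p * q)) :
    ∃ C : ℕ, ∀ (r : ℕ) (b : Fin (r + 1) → ℕ) (f : Fin (r + 1) → MvPolynomial (Fin 2) ℤ)
      (h : ℤ[X]) (e : ℤ) (N : ℕ), (∀ i, 1 ≤ b i) → ∑ i, b i = m →
      (∀ i, (f i).coeff (Finsupp.single 0 (b i)) = 1) →
      (∀ i, ∀ k ∈ (f i).support, k ≠ Finsupp.single 0 (b i) →
        p * q * k 0 + m * k 1 < p * q * b i) →
      h.Monic → h.natDegree = q →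
      Ideal.span ({MvPolynomial.map (Int.castRingHom ℚ) (∏ i, f i - hY h ^ p),
        MvPolynomial.pderiv 0 (MvPolynomial.map (Int.castRingHom ℚ) (∏ i, f i - hY h ^ p)),
        MvPolynomial.pderiv 1 (MvPolynomial.map (Int.castRingHom ℚ) (∏ i, f i - hY h ^ p))} :
          Set (MvPolynomial (Fin 2) ℚ)) = ⊤ →
      (∀ i j, i ≠ j → MvPolynomial.C e ∈ Ideal.span ({f i, f j, hY h} :
        Set (MvPolynomial (Fin 2) ℤ))) → e ≠ 0 → e.natAbs.primeFactors.card < r →
      (∀ i k, ((f i).coeff k).natAbs ≤ N) → (∀ j, (h.coeff j).natAbs ≤ N) →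
      ∀ x y : ℤ, ∏ i, MvPolynomial.eval ![x, y] (f i) = (h.eval y) ^ p →
        max x.natAbs y.natAbs ≤ (C * N) ^ C := by
  classical
  obtain ⟨n, hn⟩ : ∃ n, n = p * q := ⟨_, rfl⟩
  obtain ⟨D, hD⟩ : ∃ D, D = m * (m + n) + n := ⟨_, rfl⟩
  choose C0 hC0 using fun r : ℕ => main p D r hp
  obtain ⟨C1, hC1⟩ : ∃ C1, C1 = ∑ r ∈ Finset.range m, C0 r + 1 := ⟨_, rfl⟩
  obtain ⟨B, hB⟩ : ∃ B, B = (m + 1) * (n + 1) * (q + 1) := ⟨_, rfl⟩
  have hB1 : 1 ≤ B := by
    rw [hB]
    exact Nat.mul_pos (Nat.mul_pos (Nat.succ_pos _) (Nat.succ_pos _)) (Nat.succ_pos _)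
  have hp1 : 1 ≤ p := hp.one_lt.le
  obtain ⟨M, hM⟩ : ∃ M, M = m + p := ⟨_, rfl⟩
  have hM1 : 1 ≤ M := by omega
  have hC11 : 1 ≤ C1 := by rw [hC1]; exact Nat.le_add_left _ _
  refine ⟨C1 * 2 * B * M, ?_⟩
  intro r b f h e N hb hm hf1 hf2 hh hhq hns hcop he her hNf hNh x y hxy
  have hDat : Dat p q m r b (fun i => MvPolynomial.map (Int.castRingHom ℚ) (f i))
      (h.map (Int.castRingHom ℚ)) := by
    refine ⟨hp1, hq, hb, hm, hmn, ?_, ?_, hh.map _, ?_⟩
    · intro i
      rw [MvPolynomial.coeff_map, hf1, map_one]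
    · intro i k hk hkb
      rw [wt]
      refine hf2 i k ?_ hkb
      rw [MvPolynomial.mem_support_iff] at hk ⊢
      intro h0
      rw [MvPolynomial.coeff_map, h0, map_zero] at hk
      exact hk rfl
    · rw [hh.natDegree_map, hhq]
  have hm1 : 1 ≤ m := hDat.m_pos
  have hn1 : 1 ≤ n := by rw [hn]; exact hDat.n_pos
  have hrm : r + 1 ≤ m := by
    rw [← hm]
    have h1 : ∑ _i : Fin (r + 1), 1 ≤ ∑ i, b i := Finset.sum_le_sum fun i _ => hb i
    simpa using h1
  have hN1 : 1 ≤ N := by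
    have h1 := hNf 0 (Finsupp.single 0 (b 0))
    rw [hf1] at h1
    exact h1
  have hbm : ∀ i, b i ≤ m := by
    intro i
    rw [← hm]
    exact Finset.single_le_sum (f := b) (fun _ _ => Nat.zero_le _) (Finset.mem_univ i)
  obtain ⟨F, hF⟩ : ∃ F, F = ∏ i, f i - hY h ^ p := ⟨_, rfl⟩
  have hmapF : MvPolynomial.map (Int.castRingHom ℚ) F =
      eqn p (fun i => MvPolynomial.map (Int.castRingHom ℚ) (f i)) (h.map (Int.castRingHom ℚ)) := by
    rw [hF, eqn, map_sub, map_prod, map_pow, map_hY]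
  rw [← hF, hmapF] at hns
  have hirr : Irreducible (MvPolynomial.map (Int.castRingHom ℚ) F) := by
    rw [hmapF]; exact hDat.irr
  -- boxes
  have hbox : ∀ i, ∀ k ∈ (f i).support, k 0 ≤ m ∧ k 1 ≤ n := by
    intro i k hk
    rw [← hn] at hf2
    rcases eq_or_ne k (Finsupp.single 0 (b i)) with h1 | h1
    · rw [h1]
      simp only [Finsupp.single_eq_same]
      refine ⟨hbm i, ?_⟩
      simp
    · have h2 := hf2 i k hk h1
      have h3 : n * b i ≤ n * m := Nat.mul_le_mul_left _ (hbm i)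
      constructor
      · have h4 : n * k 0 < n * m := by omega
        exact (Nat.lt_of_mul_lt_mul_left h4).le
      · have h4 : m * k 1 < m * n := by rw [mul_comm m n]; omega
        exact (Nat.lt_of_mul_lt_mul_left h4).le
  have hfdeg : ∀ i, (f i).totalDegree ≤ m + n := by
    intro i
    rw [MvPolynomial.totalDegree]
    apply Finset.sup_le
    intro k hk
    have h1 : (k.sum fun _ e => e) = k 0 + k 1 := by
      rw [Finsupp.sum_fintype _ _ (by simp), Fin.sum_univ_two]
    rw [h1]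
    have := hbox i k hk
    omega
  have hhdeg : (hY h).totalDegree ≤ q := by
    rw [hY, aeval_eq_sum_range]
    apply MvPolynomial.totalDegree_finsetSum_le
    intro i hi
    rw [Finset.mem_range, hhq] at hi
    refine (MvPolynomial.totalDegree_smul_le _ _).trans ?_
    refine (MvPolynomial.totalDegree_pow _ _).trans ?_
    rw [MvPolynomial.totalDegree_X, mul_one]
    omega
  have hFdeg : F.totalDegree ≤ D := by
    rw [hF, hD]
    refine (MvPolynomial.totalDegree_sub _ _).trans (max_le ?_ ?_)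
    · refine (totalDegree_prod_le Finset.univ f (m + n) hfdeg).trans ?_
      rw [Finset.card_univ, Fintype.card_fin]
      exact (Nat.mul_le_mul_right _ hrm).trans (Nat.le_add_right _ _)
    · refine (MvPolynomial.totalDegree_pow _ _).trans ?_
      have h1 : p * (hY h).totalDegree ≤ n := by rw [hn]; exact Nat.mul_le_mul_left p hhdeg
      exact h1.trans (Nat.le_add_left _ _)
  have hfD : ∀ i, (f i).totalDegree ≤ D := by
    intro i
    refine (hfdeg i).trans ?_
    rw [hD]
    exact (Nat.le_mul_of_pos_left _ hm1).trans (Nat.le_add_right _ _)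
  -- lengths
  have hlf : ∀ i, len (f i) ≤ B * N := by
    intro i
    refine (len_le_of_box (f i) N m n (hNf i) (hbox i)).trans ?_
    apply Nat.mul_le_mul_right
    rw [hB]
    exact Nat.le_mul_of_pos_right _ (Nat.succ_pos _)
  have hlh : len (hY h) ≤ B * N := by
    refine (len_hY h N hNh).trans ?_
    apply Nat.mul_le_mul_right
    rw [hhq, hB]
    exact Nat.le_mul_of_pos_left _ (Nat.mul_pos (Nat.succ_pos _) (Nat.succ_pos _))
  have hBN1 : 1 ≤ B * N := Nat.mul_pos hB1 hN1
  obtain ⟨N', hN'⟩ : ∃ N', N' = 2 * (B * N) ^ M := ⟨_, rfl⟩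
  have hle1 : B * N ≤ N' := by
    rw [hN']
    exact (Nat.le_self_pow (by omega) _).trans (Nat.le_mul_of_pos_left _ (by norm_num))
  have hlF : len F ≤ N' := by
    rw [hF, hN', two_mul]
    refine (Pool.Agent.W257.len_sub_le _ _).trans (Nat.add_le_add ?_ ?_)
    · refine (Pool.Agent.W257.len_prod_le Finset.univ f (fun _ => B * N) fun i _ => hlf i).trans ?_
      rw [Finset.prod_const, Finset.card_univ, Fintype.card_fin]
      exact Nat.pow_le_pow_right hBN1 (by omega)
    · refine (Pool.Agent.W257.len_pow_le _ p _ hlh).trans ?_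
      exact Nat.pow_le_pow_right hBN1 (by omega)
  -- the function field and the place
  obtain ⟨L, _, _, π, hker, hsurj⟩ := exists_L _ hirr
  have hF1 : 1 ≤ (toB ℚ (MvPolynomial.map (Int.castRingHom ℚ) F)).natDegree := by
    rw [hmapF, hDat.toB_F.2]; exact hm1
  have hπF : π (MvPolynomial.map (Int.castRingHom ℚ) F) = 0 := (hker _).2 dvd_rfl
  obtain ⟨A, t, hQ, hA, ht0, ht1, htx, hty⟩ := hDat.place π (by rw [← hmapF]; exact hπF)
    (trans_y π _ hF1 hker)
  have hvf : ∀ i, A.valuation (π (MvPolynomial.map (Int.castRingHom ℚ) (f i)) *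
      t ^ (p * q * b i) - 1) < 1 := fun i =>
    val_lead π m (p * q) A hQ t ht0 ht1 htx hty (b i) _ (hDat.hf1 i) (hDat.hf2 i)
  have hwA : ∀ i, π (MvPolynomial.map (Int.castRingHom ℚ) (f i)) * t ^ (p * q * b i) ∈ A := by
    intro i
    rw [← A.valuation_le_one_iff, val_of_unit A (hvf i)]
  have hres : ∀ i, IsLocalRing.residue A ⟨_, hwA i⟩ = 1 := by
    intro i
    rw [← map_one (IsLocalRing.residue A), ← sub_eq_zero, ← map_sub, IsLocalRing.residue_eq_zero_iff,
      A.valuation_lt_one_iff]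
    exact hvf i
  have hmain := hC0 r e.natAbs.primeFactors F (fun i => f i.succ)
    (fun i => ∏ j ∈ Finset.univ.erase i.succ, f j) (fun _ => hY h) (fun _ => 1) (fun _ => 1) N'
    hFdeg (fun i => hfD _) hlF (fun i => (hlf _).trans hle1)
    (fun i => by simpa using hBN1.trans hle1) hirr
    (fun i => by
      rw [MvPolynomial.C_1, one_mul, Finset.mul_prod_erase _ _ (Finset.mem_univ _), hF])
    (fun i => one_ne_zero)
    (fun i l hl hlS => ⟨span_top f (hY h) F e hcop l hl (fun hdiv => hlS (by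
        rw [Nat.mem_primeFactors]
        exact ⟨hl, Int.natCast_dvd.1 hdiv, Int.natAbs_ne_zero.2 he⟩)) i.succ,
      fun hdiv => (Nat.prime_iff_prime_int.1 hl).not_isUnit (isUnit_of_dvd_one hdiv), by
        simp [padicValInt]⟩)
    her L π hker hsurj
    (by
      intro k hk hk0 c z hc
      have h1 := hDat.indep (fun i j hij => by
          have h2 := Ideal.mem_map_of_mem (MvPolynomial.map (Int.castRingHom ℚ)) (hcop i j hij)
          rw [Ideal.map_span, Set.image_insert_eq, Set.image_insert_eq, Set.image_singleton,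
            MvPolynomial.map_C, map_hY] at h2
          have h3 : (1 : MvPolynomial (Fin 2) ℚ) =
              MvPolynomial.C ((e : ℚ)⁻¹) * MvPolynomial.C (Int.castRingHom ℚ e) := by
            rw [← MvPolynomial.C_mul, eq_intCast, inv_mul_cancel₀ (by exact_mod_cast he),
              MvPolynomial.C_1]
          rw [h3]
          exact Ideal.mul_mem_left _ _ h2)
        (by rw [hns]; exact Submodule.mem_top) π (fun w => by rw [hker, hmapF]) hsurj
        (Fin.cons 0 k) 0 (by simp) (fun i => by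
          refine Fin.cases ?_ (fun i => ?_) i
          · simpa using hp.pos
          · simpa using hk i) (by
          obtain ⟨i, hi⟩ := hk0
          exact ⟨i.succ, by simpa using hi⟩) c hc z
      rw [Fin.prod_univ_succ] at h1
      simpa using h1)
    A hQ hA (fun i => t ^ (q * b i.succ)) (fun i => ⟨_, hwA i.succ⟩)
    (fun i => by
      show _ * t ^ (p * q * b i.succ) = _ * (t ^ (q * b i.succ)) ^ p
      rw [← pow_mul]
      congr 2
      ring)
    (fun i => by rw [hres, Int.cast_one]) x y (by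
      rw [hF, map_sub, map_prod, map_pow, eval_hY, hxy, sub_self])
  refine hmain.trans ?_
  -- the final estimate
  have hC01 : C0 r ≤ C1 := by
    rw [hC1]
    exact (Finset.single_le_sum (f := C0) (fun _ _ => Nat.zero_le _)
      (Finset.mem_range.2 (by omega : r < m))).trans (Nat.le_add_right _ _)
  have hstep : C0 r * N' ≤ (C1 * 2 * B * N) ^ M := by
    calc C0 r * N' ≤ C1 * (2 * (B * N) ^ M) := by rw [hN']; exact Nat.mul_le_mul_right _ hC01
      _ = (C1 * 2) * (B * N) ^ M := by ring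
      _ ≤ (C1 * 2) ^ M * (B * N) ^ M := Nat.mul_le_mul_right _ (Nat.le_self_pow (by omega) _)
      _ = _ := by rw [← mul_pow]; congr 1; ring
  have hb1 : 1 ≤ C1 * 2 * B := Nat.mul_pos (Nat.mul_pos hC11 (by norm_num)) hB1
  calc (C0 r * N') ^ C0 r ≤ ((C1 * 2 * B * N) ^ M) ^ C0 r := Nat.pow_le_pow_left hstep _
    _ = (C1 * 2 * B * N) ^ (M * C0 r) := by rw [← pow_mul]
    _ ≤ (C1 * 2 * B * N) ^ (C1 * 2 * B * M) := by
        apply Nat.pow_le_pow_right (Nat.mul_pos hb1 hN1)
        calc M * C0 r ≤ M * (C1 * 2 * B) := Nat.mul_le_mul_left _ (hC01.trans (by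
              rw [mul_assoc]
              exact Nat.le_mul_of_pos_right _ (Nat.mul_pos (by norm_num) hB1)))
          _ = _ := by ring
    _ ≤ _ := by
        apply Nat.pow_le_pow_left
        apply Nat.mul_le_mul_right
        exact Nat.le_mul_of_pos_right _ hM1

end Pool.Agent.H57.TB
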