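import Pool.Graph.R_pool_sql_team_seeded_efc1946e.K1H93.TG.Main

set_option autoImplicit false

/-! Integer points that lift to a cyclic covering of prime degree in which the place at infinity
splits: a form of the bound of the library with the class of the value given. -/

open Polynomial IntermediateField

namespace Pool.Agent.H57.TB

open Pool.Agent.H322R2 Pool.Agent.K1H93.TG

/-- The covering `s ^ n = f / d` of the curve `F = 0`: if it is irreducible, but `X ^ n - w / d` is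
reducible over the residue field of a place at infinity, or has no real root in any real embedding
of it, then the integer points which lift to the covering are bounded. -/
theorem lift_bound (n D : ℕ) (hn : 2 ≤ n) (hD : 1 ≤ D) :
    ∃ C0 : ℕ,
      ∀ (F f : MvPolynomial (Fin 2) ℤ) (d : ℤ), F.totalDegree ≤ D → f.totalDegree ≤ D →
      Irreducible (MvPolynomial.map (Int.castRingHom ℚ) F) → d ≠ 0 →
      ∀ (L : Type) [Field L] [Algebra ℚ L] (π : MvPolynomial (Fin 2) ℚ →ₐ[ℚ] L),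
      (∀ w, π w = 0 ↔ MvPolynomial.map (Int.castRingHom ℚ) F ∣ w) →
      (∀ z : L, ∃ w1 w2, π w2 ≠ 0 ∧ π w2 * z = π w1) →
      ∀ A : ValuationSubring L, (∀ q : ℚ, algebraMap ℚ L q ∈ A) →
      ¬ (π (MvPolynomial.X 0) ∈ A ∧ π (MvPolynomial.X 1) ∈ A) →
      ∀ (t : L) (w : A), t ≠ 0 → IsUnit w →
      (w : L) = π (MvPolynomial.map (Int.castRingHom ℚ) f) * t ^ n →
      (Irreducible (X ^ n - C (IsLocalRing.residue A w / (d : IsLocalRing.ResidueField A))) →
        ∀ (ι : IsLocalRing.ResidueField A →+* ℝ) (η : ℝ),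
          (d : ℝ) * η ^ n ≠ ι (IsLocalRing.residue A w)) →
      Irreducible (X ^ n - C (π (MvPolynomial.map (Int.castRingHom ℚ) f) / (d : L))) →
      ∀ x y s : ℤ, MvPolynomial.eval ![x, y] F = 0 →
        MvPolynomial.eval ![x, y] f = d * s ^ n →
        max x.natAbs y.natAbs ≤ (C0 * (d.natAbs * len F * len f)) ^ C0 := by
  have hn1 : 1 ≤ n := by omega
  choose Ck ck hCk hck hmain using fun k : ℕ => core n (k + 1) D D (k + 1) hn1 (by omega)
  obtain ⟨P, hP⟩ : ∃ P, P = (1 + D) ^ D := ⟨_, rfl⟩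
  obtain ⟨E, hE⟩ : ∃ E, E = (n - 1) * (n - 1) + n * D + D + 1 := ⟨_, rfl⟩
  obtain ⟨C1, hC1⟩ : ∃ C1, C1 = ∑ k ∈ Finset.range D, Ck k + 1 :=
    ⟨_, rfl⟩
  obtain ⟨E2, hE2⟩ : ∃ E2, E2 = 1 + D + E * C1 := ⟨_, rfl⟩
  have hP1 : 1 ≤ P := by rw [hP]; exact Nat.one_le_pow _ _ (by omega)
  have hE1 : 1 ≤ E := by rw [hE]; omega
  have hC11 : 1 ≤ C1 := by rw [hC1]; omega
  refine ⟨C1 * P + E2, ?_⟩
  intro F f d hFD hfD hirr hd0 L _ _ π hker hsurj A hQ hA t w ht hw hwf hres0 hcov x y s hxy hds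
  have : CharZero L := algebraRat.charZero L
  have hF0 : F ≠ 0 := by
    rintro rfl
    rw [map_zero] at hirr
    exact hirr.ne_zero rfl
  have hd1 : 1 ≤ F.totalDegree := by
    by_contra hlt
    have h0 : F.totalDegree = 0 := by omega
    rw [MvPolynomial.totalDegree_eq_zero_iff_eq_C] at h0
    rw [h0, MvPolynomial.map_C] at hirr
    apply hirr.not_isUnit
    apply IsUnit.map
    apply isUnit_iff_ne_zero.2
    intro h1
    apply hF0
    rw [h0]
    rw [eq_intCast, Int.cast_eq_zero] at h1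
    rw [h1, map_zero]
  have hπf : π (MvPolynomial.map (Int.castRingHom ℚ) f) ≠ 0 := by
    intro h0
    rw [h0, zero_mul] at hwf
    have : w = 0 := Subtype.ext hwf
    rw [this] at hw
    exact not_isUnit_zero hw
  have hf0 : f ≠ 0 := by
    rintro rfl
    simp at hπf
  obtain ⟨M, hM⟩ : ∃ M, M = d.natAbs * len F * len f := ⟨_, rfl⟩
  rw [← hM]
  have hlF : 1 ≤ len F := one_le_len hF0
  have hlf : 1 ≤ len f := one_le_len hf0
  have hd1' : 1 ≤ d.natAbs := Int.natAbs_pos.2 hd0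
  have hMd : d.natAbs ≤ M := by
    rw [hM, mul_assoc]
    exact Nat.le_mul_of_pos_right _ (Nat.mul_pos hlF hlf)
  have hMF : len F ≤ M := by
    rw [hM]
    calc len F ≤ d.natAbs * len F := Nat.le_mul_of_pos_left _ hd1'
      _ ≤ _ := Nat.le_mul_of_pos_right _ hlf
  have hMf : len f ≤ M := by
    rw [hM]
    exact Nat.le_mul_of_pos_left _ (Nat.mul_pos hd1' hlF)
  have hM1 : 1 ≤ M := hlF.trans hMF
  have hMP1 : 1 ≤ M * P := Nat.mul_pos hM1 hP1
  obtain ⟨u, hu, hc⟩ := exists_u F hF0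
  have hc' : lc F u ≠ 0 := hc
  obtain ⟨H, hH⟩ : ∃ H, H = (M * P) ^ E := ⟨_, rfl⟩
  have hH1 : 1 ≤ H := by rw [hH]; exact Nat.one_le_pow _ _ hMP1
  obtain ⟨hev, htr, hgen, hpl⟩ := Pool.Agent.Y852.FFRed.ff_reduce F hirr u hc' hd1 π hker hsurj _ _
    rfl rfl
  obtain ⟨α, hα⟩ : ∃ α : L, α = π (MvPolynomial.X 1) - (u : L) * π (MvPolynomial.X 0) := ⟨_, rfl⟩
  obtain ⟨β, hβ⟩ : ∃ β : L, β = ((lc F u : ℤ) : L) * π (MvPolynomial.X 0) := ⟨_, rfl⟩
  rw [← hα, ← hβ] at hev hgen hpl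
  rw [← hα] at htr
  have hαA : α ∉ A := by
    intro h1
    have h2 : β ∈ A := mem_of_monic_root A α β (GG F u) (GG_monic hc') hev h1
    exact hA ((hpl A hQ).2 ⟨h1, h2⟩)
  have hfs : ev α β (fs u (lc F u) (n * D) D f) =
      ((lc F u : ℤ) : L) ^ (n * D) * π (MvPolynomial.map (Int.castRingHom ℚ) f) := by
    rw [← eval₂_pi π f, hα, hβ]
    exact ev_fs u (lc F u) (n * D) D f hfD (Nat.le_mul_of_pos_left _ hn1) _ _
  have hcL : ((lc F u : ℤ) : L) ≠ 0 := by exact_mod_cast hc'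
  -- the way to conclude
  have fin1 : (y - u * x).natAbs ≤ (C1 * H) ^ C1 →
      max x.natAbs y.natAbs ≤ ((C1 * P + E2) * M) ^ (C1 * P + E2) := by
    intro h1
    obtain ⟨hG1, -, -, -⟩ := heights n D F f hFD hfD u hu hc' hd1 M P E hP hE hM1 hMF hMf 1
      (by simpa using Nat.one_le_pow _ _ hM1)
    rw [hH] at h1
    refine (back D hD F hFD u hu hc' hd1 M P E C1 C1 hP hM1 hE1 hC11 hG1 x y hxy h1).trans ?_
    rw [← hE2]
    refine (Nat.pow_le_pow_left (Nat.mul_le_mul_right M (Nat.le_add_right _ E2)) _).trans ?_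
    apply Nat.pow_le_pow_right _ (Nat.le_add_left _ _)
    exact Nat.mul_pos (Nat.add_pos_left (Nat.mul_pos hC11 hP1) _) hM1
  have hdM : d.natAbs ≤ M ^ (n - 1) := by
    refine hMd.trans ?_
    exact Nat.le_self_pow (by omega) _
  obtain ⟨-, hG2, hf2, hf3⟩ := heights n D F f hFD hfD u hu hc' hd1 M P E hP hE hM1 hMF hMf d hdM
  rw [← hH] at hG2 hf2 hf3
  obtain ⟨k, hk⟩ : ∃ k, F.totalDegree = k + 1 := ⟨F.totalDegree - 1, by omega⟩
  have hkD : k ∈ Finset.range D := Finset.mem_range.2 (by omega)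
  have hdL : (d : L) ≠ 0 := by exact_mod_cast hd0
  -- the unit
  obtain ⟨dA, hdA⟩ : ∃ dA : A, dA = ⟨algebraMap ℚ L ((d : ℚ)⁻¹), hQ _⟩ := ⟨_, rfl⟩
  have hdA1 : dA * (d : A) = 1 := by
    apply Subtype.ext
    rw [hdA]
    push_cast
    simp only [map_intCast]
    exact inv_mul_cancel₀ hdL
  have hdAu : IsUnit dA := IsUnit.of_mul_eq_one _ hdA1
  have hres : IsLocalRing.residue A (w * dA) =
      IsLocalRing.residue A w / (d : IsLocalRing.ResidueField A) := by
    have h1 : IsLocalRing.residue A dA * (d : IsLocalRing.ResidueField A) = 1 := by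
      rw [← map_intCast (IsLocalRing.residue A) d, ← map_mul, hdA1, map_one]
    rw [map_mul, div_eq_mul_inv, eq_inv_of_mul_eq_one_left h1]
  have hunit : ((w * dA : A) : L) = ev α β (fs u (lc F u) (n * D) D f) / (d : L) *
      (t / ((lc F u : ℤ) : L) ^ D) ^ n := by
    rw [hfs]
    push_cast
    rw [hwf, hdA]
    simp only [map_inv₀, map_intCast]
    rw [div_pow, ← pow_mul, mul_comm D n]
    field_simp
  have hirr' : ¬ Irreducible (X ^ n - C (IsLocalRing.residue A (w * dA))) →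
      Irreducible (X ^ n - C (ev α β (fs u (lc F u) (n * D) D f) / (d : L))) := by
    intro h1
    have h2 := irr_scale n _ (((lc F u : ℤ) : L) ^ D) (pow_ne_zero _ hcL) hcov
    rw [hfs]
    convert h2 using 3
    rw [← pow_mul, mul_comm D n]
    ring
  have hev0 : ev (y - u * x) (lc F u * x) (GG F u) = 0 := by
    have h1 := ev_f2 (S := ℤ) u F x y
    rw [eval₂_int, hxy] at h1
    have h2 : ev (y - u * x) x (F2 F u) = 0 := h1
    rw [ev_GG hc' hd1, h2, mul_zero]
  have hevf : ev (y - u * x) (lc F u * x) (fs u (lc F u) (n * D) D f) =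
      d * (lc F u ^ D * s) ^ n := by
    have h2 := ev_fs (S := ℤ) u (lc F u) (n * D) D f hfD (Nat.le_mul_of_pos_left _ hn1) x y
    rw [eval₂_int, hds] at h2
    have h3 : ev (y - u * x) (lc F u * x) (fs u (lc F u) (n * D) D f) =
        (lc F u) ^ (n * D) * (d * s ^ n) := by simpa using h2
    rw [h3, mul_pow, ← pow_mul, mul_comm D n]
    ring
  have hGTD := GG_TD hc'
  rcases hmain k (GG F u) (fs u (lc F u) (n * D) D f) (GG_monic hc')
    (by rw [GG_natDegree hc', hk]) (fun j => by rw [← hk]; exact (hGTD.2 j).trans (Nat.sub_le _ _))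
    (fs_natDegree _ _ _ _ _) (fs_ID _ _ _ _ _ hfD) (GG_irr F u hc' hd1 hirr) H d hH1 hd0 hG2 hf3
    L α β htr hev hgen A hQ hαA (t / ((lc F u : ℤ) : L) ^ D) (w * dA)
    (div_ne_zero ht (pow_ne_zero _ hcL)) (hw.mul hdAu) hunit hirr' (y - u * x) (lc F u * x)
    (lc F u ^ D * s) hev0 hevf with h1 | ⟨h1, ι, η, h2, -, -⟩
  · apply fin1
    have h4 : Ck k ≤ C1 := by
      rw [hC1]
      exact (Finset.single_le_sum (f := Ck) (fun _ _ => Nat.zero_le _) hkD).trans
        (Nat.le_add_right _ _)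
    refine h1.trans ((Nat.pow_le_pow_left (Nat.mul_le_mul_right _ h4) _).trans ?_)
    exact Nat.pow_le_pow_right (Nat.mul_pos hC11 hH1) h4
  · rw [hres] at h1
    refine absurd ?_ (hres0 h1 ι η)
    rw [h2, hres, map_div₀, map_intCast]
    have hdR : (d : ℝ) ≠ 0 := by exact_mod_cast hd0
    field_simp

end Pool.Agent.H57.TB
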