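import Pool.Agent.H57.TB.Lead
import Pool.Graph.R_seed8.Y68.Place

set_option autoImplicit false

/-! The factors of `f₀ ⋯ f_r = h ^ p` are independent modulo `p`-th powers. -/

open Polynomial

namespace Pool.Agent.H57.TB

open Pool.Agent.H322R2

lemma toB_aeval (h : ℚ[X]) : toB ℚ (aeval (MvPolynomial.X 1 : MvPolynomial (Fin 2) ℚ) h) = C h := by
  rw [← Polynomial.aeval_algHom_apply, toB_X1]
  have h1 := Polynomial.aeval_algebraMap_apply ℚ[X][X] (X : ℚ[X]) h
  rw [aeval_X_left_apply] at h1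
  exact h1

/-- the reduction modulo `h ^ s` -/
noncomputable def rd (h : ℚ[X]) (s : ℕ) :
    MvPolynomial (Fin 2) ℚ →+* (ℚ[X] ⧸ Ideal.span {h ^ s})[X] :=
  (mapRingHom (Ideal.Quotient.mk (Ideal.span {h ^ s}))).comp
    (toB ℚ : MvPolynomial (Fin 2) ℚ →+* ℚ[X][X])

lemma rd_apply (h : ℚ[X]) (s : ℕ) (w : MvPolynomial (Fin 2) ℚ) :
    rd h s w = (toB ℚ w).map (Ideal.Quotient.mk (Ideal.span {h ^ s})) := rfl

lemma rd_pow_zero (h : ℚ[X]) (s t : ℕ) (hst : s ≤ t) :
    rd h s (aeval (MvPolynomial.X 1 : MvPolynomial (Fin 2) ℚ) h ^ t) = 0 := by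
  rw [rd_apply, map_pow, toB_aeval, Polynomial.map_pow, Polynomial.map_C, ← C_pow, ← map_pow]
  have h1 : Ideal.Quotient.mk (Ideal.span {h ^ s}) (h ^ t) = 0 := by
    rw [Ideal.Quotient.eq_zero_iff_mem, Ideal.mem_span_singleton]
    exact pow_dvd_pow h hst
  rw [h1, C_0]

lemma rd_coprime (h : ℚ[X]) (s : ℕ) (u v : MvPolynomial (Fin 2) ℚ)
    (huv : (1 : MvPolynomial (Fin 2) ℚ) ∈ Ideal.span
      ({u, v, aeval (MvPolynomial.X 1 : MvPolynomial (Fin 2) ℚ) h} :
        Set (MvPolynomial (Fin 2) ℚ))) : IsCoprime (rd h s u) (rd h s v) := by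
  rw [Ideal.mem_span_insert] at huv
  obtain ⟨a, w, hw, h1⟩ := huv
  rw [Ideal.mem_span_pair] at hw
  obtain ⟨c, d, h2⟩ := hw
  have h3 : IsNilpotent (rd h s (d * aeval (MvPolynomial.X 1 : MvPolynomial (Fin 2) ℚ) h)) := by
    refine ⟨s, ?_⟩
    rw [← map_pow, mul_pow, map_mul, rd_pow_zero h s s le_rfl, mul_zero]
  have h4 := h3.isUnit_one_sub
  obtain ⟨ε, hε⟩ := h4.exists_right_inv
  refine ⟨ε * rd h s a, ε * rd h s c, ?_⟩
  have h5 : rd h s a * rd h s u + rd h s c * rd h s v =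
      1 - rd h s (d * aeval (MvPolynomial.X 1 : MvPolynomial (Fin 2) ℚ) h) := by
    have h6 := congrArg (rd h s) h1
    rw [← h2] at h6
    simp only [map_one, map_add, map_mul] at h6 ⊢
    linear_combination -h6
  rw [← hε, ← h5]
  ring

lemma prod_dvd' {ι T : Type} [CommRing T] (B : Finset ι) (f : ι → T) (g : T)
    (hdiv : ∀ i ∈ B, f i ∣ g) (hcop : ∀ i ∈ B, ∀ j ∈ B, i ≠ j → IsCoprime (f i) (f j)) :
    ∏ i ∈ B, f i ∣ g := by
  apply Finset.prod_dvd_of_coprime _ hdiv
  intro i hi j hj hij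
  exact hcop i hi j hj hij

/-- a polynomial of low degree divisible by many coprime monic polynomials -/
lemma rd_zero {ι : Type} (h : ℚ[X]) (s : ℕ) (B : Finset ι) (f : ι → MvPolynomial (Fin 2) ℚ)
    (hf : ∀ i, (toB ℚ (f i)).Monic) (G : MvPolynomial (Fin 2) ℚ)
    (hdeg : (toB ℚ G).natDegree < ∑ i ∈ B, (toB ℚ (f i)).natDegree)
    (hdiv : ∀ i ∈ B, rd h s (f i) ∣ rd h s G)
    (hcop : ∀ i ∈ B, ∀ j ∈ B, i ≠ j → IsCoprime (rd h s (f i)) (rd h s (f j))) (j : ℕ) :
    h ^ s ∣ (toB ℚ G).coeff j := by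
  have h0 : rd h s G = 0 := by
    rcases subsingleton_or_nontrivial (ℚ[X] ⧸ Ideal.span {h ^ s}) with hsub | hnt
    · exact Subsingleton.elim _ _
    have h1 : ∏ i ∈ B, rd h s (f i) ∣ rd h s G := prod_dvd' B _ _ hdiv hcop
    by_contra hne
    have hmon : (∏ i ∈ B, rd h s (f i)).Monic := by
      apply monic_prod_of_monic
      intro i _
      exact (hf i).map _
    have h2 := hmon.not_dvd_of_natDegree_lt hne (by
      rw [natDegree_prod_of_monic B (fun i => rd h s (f i)) fun i _ => (hf i).map _]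
      refine lt_of_le_of_lt natDegree_map_le (lt_of_lt_of_eq hdeg ?_)
      apply Finset.sum_congr rfl
      intro i _
      exact ((hf i).natDegree_map _).symm)
    exact h2 h1
  have h3 := congrArg (fun w => w.coeff j) h0
  rw [rd_apply, coeff_zero] at h3
  simp only [coeff_map] at h3
  rwa [Ideal.Quotient.eq_zero_iff_mem, Ideal.mem_span_singleton] at h3

lemma trans_y {L : Type} [Field L] [Algebra ℚ L] (π : MvPolynomial (Fin 2) ℚ →ₐ[ℚ] L)
    (P : MvPolynomial (Fin 2) ℚ) (hP : 1 ≤ (toB ℚ P).natDegree) (hker : ∀ w, π w = 0 ↔ P ∣ w) :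
    Transcendental ℚ (π (MvPolynomial.X 1)) := by
  rw [transcendental_iff]
  intro g hg
  by_contra hg0
  have h1 : π (aeval (MvPolynomial.X 1 : MvPolynomial (Fin 2) ℚ) g) = 0 := by
    rw [← Polynomial.aeval_algHom_apply, hg]
  obtain ⟨W, hW⟩ := (hker _).1 h1
  have h2 : C g = toB ℚ P * toB ℚ W := by
    rw [← map_mul, ← hW, toB_aeval]
  have h3 : (C g : ℚ[X][X]) ≠ 0 := fun h => hg0 (C_eq_zero.1 h)
  have h4 : toB ℚ P ≠ 0 := by
    intro h; rw [h, zero_mul] at h2; exact h3 h2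
  have h5 : toB ℚ W ≠ 0 := by
    intro h; rw [h, mul_zero] at h2; exact h3 h2
  have h6 := congrArg natDegree h2
  rw [natDegree_C, natDegree_mul h4 h5] at h6
  omega

/-- The counting in the proof of independence. -/
lemma count (r p m e s : ℕ) (b k : Fin (r + 1) → ℕ) (hb : ∑ i, b i = m) (hb1 : ∀ i, 1 ≤ b i)
    (hs : s + 1 ≤ p) (j₀ : Fin (r + 1)) (hj : k j₀ = 0) (hk : ∀ i, k i < p)
    (he : ∑ i ∈ Finset.univ.filter (fun i => s + 1 ≤ k i), b i ≤ e)
    (hK : p * e + m * s ≤ ∑ i, k i * b i) : ∀ i, k i = 0 := by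
  classical
  obtain ⟨u, hu⟩ : ∃ u, p = u + s + 1 := ⟨p - (s + 1), by omega⟩
  have h1 : ∀ i, k i * b i ≤ (if i = j₀ then 0 else s * b i) +
      (if s + 1 ≤ k i then u * b i else 0) := by
    intro i
    by_cases hi : i = j₀
    · rw [hi, hj, zero_mul]; exact Nat.zero_le _
    rw [if_neg hi]
    split_ifs with h
    · rw [← add_mul]
      apply Nat.mul_le_mul_right
      have := hk i
      omega
    · rw [add_zero]
      apply Nat.mul_le_mul_right
      omega
  have h2 : ∑ i, k i * b i ≤ s * (m - 1) + u * e := by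
    refine (Finset.sum_le_sum fun i _ => h1 i).trans ?_
    rw [Finset.sum_add_distrib]
    apply Nat.add_le_add
    · have h3 : ∑ i, (if i = j₀ then 0 else s * b i) + s * b j₀ = s * m := by
        rw [← hb, Finset.mul_sum]
        have h4 : ∀ i, s * b i = (if i = j₀ then 0 else s * b i) + (if i = j₀ then s * b i else 0) := by
          intro i
          split_ifs <;> simp
        rw [Finset.sum_congr rfl fun i _ => h4 i, Finset.sum_add_distrib]
        simp
      have h5 : s * 1 ≤ s * b j₀ := Nat.mul_le_mul_left s (hb1 j₀)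
      rw [Nat.mul_sub, mul_one]
      omega
    · rw [← Finset.sum_filter, ← Finset.mul_sum]
      exact Nat.mul_le_mul_left u he
  have hm : 1 ≤ m := by
    rw [← hb]
    exact (hb1 j₀).trans (Finset.single_le_sum (f := b) (fun _ _ => Nat.zero_le _)
      (Finset.mem_univ j₀))
  have h3 : p * e + m * s ≤ s * (m - 1) + u * e := hK.trans h2
  obtain ⟨m', rfl⟩ : ∃ m', m = m' + 1 := ⟨m - 1, by omega⟩
  rw [hu, Nat.add_sub_cancel] at h3
  have h4 : (s + 1) * e + s ≤ 0 := by nlinarith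
  have hs0 : s = 0 := by omega
  subst hs0
  have he0 : e = 0 := by
    rw [zero_add, one_mul] at h4
    omega
  rw [he0] at he
  intro i
  by_contra hi
  have h5 : i ∈ Finset.univ.filter (fun i => 0 + 1 ≤ k i) := by
    rw [Finset.mem_filter]
    exact ⟨Finset.mem_univ _, by omega⟩
  have h6 := Finset.single_le_sum (f := b) (fun _ _ => Nat.zero_le _) h5
  have := hb1 i
  omega

/-- the equation `f₀ ⋯ f_r = h ^ p` -/
noncomputable def eqn (p : ℕ) {r : ℕ} (f : Fin (r + 1) → MvPolynomial (Fin 2) ℚ) (h : ℚ[X]) :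
    MvPolynomial (Fin 2) ℚ :=
  ∏ i, f i - (aeval (MvPolynomial.X 1 : MvPolynomial (Fin 2) ℚ) h) ^ p

/-- the assumptions on the factors -/
structure Dat (p q m r : ℕ) (b : Fin (r + 1) → ℕ) (f : Fin (r + 1) → MvPolynomial (Fin 2) ℚ)
    (h : ℚ[X]) : Prop where
  hp : 1 ≤ p
  hq : 1 ≤ q
  hb : ∀ i, 1 ≤ b i
  hm : ∑ i, b i = m
  hmn : Nat.Coprime m (p * q)
  hf1 : ∀ i, (f i).coeff (Finsupp.single 0 (b i)) = 1
  hf2 : ∀ i, ∀ k ∈ (f i).support, k ≠ Finsupp.single 0 (b i) → wt m (p * q) k < p * q * b i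
  hh : h.Monic
  hhq : h.natDegree = q

namespace Dat

variable {p q m r : ℕ} {b : Fin (r + 1) → ℕ} {f : Fin (r + 1) → MvPolynomial (Fin 2) ℚ} {h : ℚ[X]}

lemma m_pos (H : Dat p q m r b f h) : 1 ≤ m := by
  rw [← H.hm]
  exact (H.hb 0).trans (Finset.single_le_sum (f := b) (fun _ _ => Nat.zero_le _)
    (Finset.mem_univ 0))

lemma n_pos (H : Dat p q m r b f h) : 1 ≤ p * q := Nat.mul_pos H.hp H.hq

lemma ld_f (H : Dat p q m r b f h) (i : Fin (r + 1)) :
    IsLd m (p * q) (p * q * b i) (MvPolynomial.X 0 ^ b i) (f i) :=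
  isLd_of_coeff (H.hf1 i) (H.hf2 i)

lemma toB_f (H : Dat p q m r b f h) (i : Fin (r + 1)) :
    (toB ℚ (f i)).Monic ∧ (toB ℚ (f i)).natDegree = b i := by
  apply toB_monic _ _ (H.hf1 i)
  intro k hk hkb
  have h1 := H.hf2 i k hk hkb
  rw [wt] at h1
  have h2 : p * q * k 0 < p * q * b i := lt_of_le_of_lt (Nat.le_add_right _ _) h1
  exact Nat.lt_of_mul_lt_mul_left h2

lemma ld_prod (H : Dat p q m r b f h) :
    IsLd m (p * q) (m * (p * q)) (MvPolynomial.X 0 ^ m) (∏ i, f i) := by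
  have h1 := IsLd.prod Finset.univ (fun i => p * q * b i) _ _ fun i _ => H.ld_f i
  rw [← Finset.mul_sum, Finset.prod_pow_eq_pow_sum, H.hm, mul_comm (p * q) m] at h1
  exact h1

lemma ld_pow (H : Dat p q m r b f h) :
    IsLd m (p * q) (m * (p * q)) (MvPolynomial.X 1 ^ (p * q))
      ((aeval (MvPolynomial.X 1 : MvPolynomial (Fin 2) ℚ) h) ^ p) := by
  have h1 := (isLd_aeval (m := m) (n := p * q) H.m_pos h H.hh).pow p
  rw [H.hhq, ← pow_mul, mul_assoc, mul_comm q p] at h1
  exact h1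

lemma rest (H : Dat p q m r b f h) : LW m (p * q) (m * (p * q))
    (eqn p f h - (MvPolynomial.X 0 ^ m - MvPolynomial.X 1 ^ (p * q))) := by
  have h1 : eqn p f h - (MvPolynomial.X 0 ^ m - MvPolynomial.X 1 ^ (p * q)) =
      (∏ i, f i - MvPolynomial.X 0 ^ m) -
      ((aeval (MvPolynomial.X 1 : MvPolynomial (Fin 2) ℚ) h) ^ p -
        MvPolynomial.X 1 ^ (p * q)) := by
    rw [eqn]; ring
  rw [h1]
  exact H.ld_prod.2.sub H.ld_pow.2

lemma coeff_eqn (H : Dat p q m r b f h) (k : Fin 2 →₀ ℕ) (hk : m * (p * q) ≤ wt m (p * q) k) :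
    (eqn p f h).coeff k = (MvPolynomial.X 0 ^ m - MvPolynomial.X 1 ^ (p * q) :
      MvPolynomial (Fin 2) ℚ).coeff k := by
  by_contra hcon
  have h1 : k ∈ (eqn p f h - (MvPolynomial.X 0 ^ m - MvPolynomial.X 1 ^ (p * q))).support := by
    rw [MvPolynomial.mem_support_iff, MvPolynomial.coeff_sub]
    exact sub_ne_zero.2 hcon
  exact absurd (H.rest k h1) (not_lt.2 hk)

lemma toB_F (H : Dat p q m r b f h) :
    (toB ℚ (eqn p f h)).Monic ∧ (toB ℚ (eqn p f h)).natDegree = m := by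
  classical
  have hn := H.n_pos
  have hm := H.m_pos
  have hp := H.hp
  have hq := H.hq
  have hne : Finsupp.single (1 : Fin 2) (p * q) ≠ Finsupp.single 0 m := by
    intro h1
    have h2 := DFunLike.congr_fun h1 1
    simp at h2
    omega
  apply toB_monic
  · rw [H.coeff_eqn _ (by rw [wt]; simp; rw [mul_comm]), MvPolynomial.coeff_sub,
      MvPolynomial.X_pow_eq_monomial, MvPolynomial.X_pow_eq_monomial, MvPolynomial.coeff_monomial,
      MvPolynomial.coeff_monomial, if_pos rfl, if_neg hne, sub_zero]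
  · intro k hk hk0
    by_contra hcon
    rw [not_lt] at hcon
    have h1 : m * (p * q) ≤ wt m (p * q) k := by
      rw [wt, mul_comm m]
      exact (Nat.mul_le_mul_left _ hcon).trans (Nat.le_add_right _ _)
    rw [MvPolynomial.mem_support_iff, H.coeff_eqn k h1, MvPolynomial.coeff_sub,
      MvPolynomial.X_pow_eq_monomial, MvPolynomial.X_pow_eq_monomial, MvPolynomial.coeff_monomial,
      MvPolynomial.coeff_monomial, if_neg fun h2 => hk0 h2.symm, zero_sub, neg_ne_zero] at hk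
    have h3 : Finsupp.single 1 (p * q) = k := by
      by_contra h4
      exact hk (if_neg h4)
    rw [← h3] at hcon
    simp at hcon
    omega

lemma toB_F' (H : Dat p q m r b f h) :
    (toB ℚ (MvPolynomial.rename (Equiv.swap (0 : Fin 2) 1) (-eqn p f h))).Monic := by
  classical
  have hn := H.n_pos
  have hm := H.m_pos
  have hp := H.hp
  have hq := H.hq
  have hco : ∀ (w : MvPolynomial (Fin 2) ℚ) (k : Fin 2 →₀ ℕ),
      (MvPolynomial.rename (Equiv.swap (0 : Fin 2) 1) w).coeff k =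
        w.coeff (k.mapDomain (Equiv.swap (0 : Fin 2) 1)) := by
    intro w k
    have h1 := MvPolynomial.coeff_rename_mapDomain (Equiv.swap (0 : Fin 2) 1)
      (Equiv.swap (0 : Fin 2) 1).injective w (k.mapDomain (Equiv.swap (0 : Fin 2) 1))
    rw [← Finsupp.mapDomain_comp] at h1
    have h2 : (Equiv.swap (0 : Fin 2) 1 : Fin 2 → Fin 2) ∘ (Equiv.swap (0 : Fin 2) 1) = id := by
      funext i
      simp
    rw [h2, Finsupp.mapDomain_id] at h1
    exact h1
  have hsw : ∀ k : Fin 2 →₀ ℕ, (k.mapDomain (Equiv.swap (0 : Fin 2) 1)) 0 = k 1 ∧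
      (k.mapDomain (Equiv.swap (0 : Fin 2) 1)) 1 = k 0 := by
    intro k
    have h1 := Finsupp.mapDomain_apply (Equiv.swap (0 : Fin 2) 1).injective k 1
    have h2 := Finsupp.mapDomain_apply (Equiv.swap (0 : Fin 2) 1).injective k 0
    rw [Equiv.swap_apply_right] at h1
    rw [Equiv.swap_apply_left] at h2
    exact ⟨h1, h2⟩
  have hne : Finsupp.single (0 : Fin 2) m ≠ Finsupp.single 1 (p * q) := by
    intro h1
    have h2 := DFunLike.congr_fun h1 1
    simp at h2
    omega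
  refine (toB_monic _ (p * q) ?_ ?_).1
  · rw [hco, Finsupp.mapDomain_single, Equiv.swap_apply_left, MvPolynomial.coeff_neg,
      H.coeff_eqn _ (by rw [wt]; simp), MvPolynomial.coeff_sub,
      MvPolynomial.X_pow_eq_monomial, MvPolynomial.X_pow_eq_monomial, MvPolynomial.coeff_monomial,
      MvPolynomial.coeff_monomial, if_neg hne, if_pos rfl]
    norm_num
  · intro k hk hk0
    by_contra hcon
    rw [not_lt] at hcon
    obtain ⟨l, hl⟩ : ∃ l, l = k.mapDomain (Equiv.swap (0 : Fin 2) 1) := ⟨_, rfl⟩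
    have hl1 : l 1 = k 0 := by rw [hl]; exact (hsw k).2
    have hl0 : l 0 = k 1 := by rw [hl]; exact (hsw k).1
    have h1 : m * (p * q) ≤ wt m (p * q) l := by
      rw [wt, hl1]
      exact (Nat.mul_le_mul_left _ hcon).trans (Nat.le_add_left _ _)
    rw [MvPolynomial.mem_support_iff, hco, ← hl, MvPolynomial.coeff_neg, neg_ne_zero,
      H.coeff_eqn l h1, MvPolynomial.coeff_sub,
      MvPolynomial.X_pow_eq_monomial, MvPolynomial.X_pow_eq_monomial, MvPolynomial.coeff_monomial,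
      MvPolynomial.coeff_monomial] at hk
    have h3 : Finsupp.single 0 m ≠ l := by
      intro h4
      rw [← hl1, ← h4] at hcon
      simp at hcon
      omega
    rw [if_neg h3, zero_sub, neg_ne_zero] at hk
    have h4 : Finsupp.single 1 (p * q) = l := by
      by_contra h4
      exact hk (if_neg h4)
    apply hk0
    ext i
    fin_cases i
    · show k 0 = _
      rw [← hl1, ← h4]; simp
    · show k 1 = _
      rw [← hl0, ← h4]; simp

end Dat

end Pool.Agent.H57.TB
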