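import Mathlib
import Pool.Graph.R_seed8.H322R2.Red1

set_option autoImplicit false

/-! Functions on a nonsingular curve, some power of which is a polynomial. -/

open Polynomial Pointwise

namespace Pool.Agent.H57.TB

open Pool.Agent.H322R2

variable {L : Type} [Field L] [Algebra ℚ L]

lemma toB_pderiv (P : MvPolynomial (Fin 2) ℚ) :
    toB ℚ (MvPolynomial.pderiv 0 P) = derivative (toB ℚ P) := by
  induction P using MvPolynomial.induction_on with
  | C a => simp
  | add p q hp hq => rw [map_add, map_add, hp, hq, map_add, derivative_add]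
  | mul_X p i hp =>
    rw [Derivation.leibniz, map_add, smul_eq_mul, smul_eq_mul, map_mul, map_mul, hp, map_mul,
      derivative_mul]
    fin_cases i
    · simp
      ring
    · simp
      ring

theorem trace_dual (π : MvPolynomial (Fin 2) ℚ →ₐ[ℚ] L) (P : MvPolynomial (Fin 2) ℚ)
    (hmonic : (toB ℚ P).Monic) (hker : ∀ w, π w = 0 ↔ P ∣ w)
    (hsurj : ∀ z : L, ∃ w1 w2, π w2 ≠ 0 ∧ π w2 * z = π w1) (z : L) (p : ℕ) (hp : 0 < p)
    (hz : ∃ w, π w = z ^ p) : ∃ w, π w = π (MvPolynomial.pderiv 0 P) * z := by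
  have hcL : CharZero L := algebraRat.charZero L
  obtain ⟨x, hx⟩ : ∃ x, x = π (MvPolynomial.X 0) := ⟨_, rfl⟩
  obtain ⟨y, hy⟩ : ∃ y, y = π (MvPolynomial.X 1) := ⟨_, rfl⟩
  let _ : Algebra ℚ[X] L := (aeval y : ℚ[X] →ₐ[ℚ] L).toAlgebra
  have halg : ∀ g : ℚ[X], algebraMap ℚ[X] L g = aeval y g := fun g => rfl
  -- `π` in terms of `toB`
  have hπ : ∀ w, π w = aeval x (toB ℚ w) := by
    intro w
    have h1 : (π : MvPolynomial (Fin 2) ℚ →+* L) =
        ((aeval x : ℚ[X][X] →ₐ[ℚ[X]] L) : ℚ[X][X] →+* L).comp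
          (toB ℚ : MvPolynomial (Fin 2) ℚ →+* ℚ[X][X]) := by
      apply MvPolynomial.ringHom_ext
      · intro r
        simp [halg]
      · intro i
        fin_cases i
        · simp [hx]
        · simp [halg, hy]
    exact congrArg (fun g : MvPolynomial (Fin 2) ℚ →+* L => g w) h1
  have hP1 : 1 ≤ (toB ℚ P).natDegree := by
    by_contra h
    have h1 : (toB ℚ P).natDegree = 0 := by omega
    have h2 := hmonic.natDegree_eq_zero.1 h1
    have h3 : P = 1 := by
      apply (toB ℚ).injective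
      rw [h2, map_one]
    have h4 : π 1 = 0 := (hker 1).2 (h3 ▸ dvd_rfl)
    rw [map_one] at h4
    exact one_ne_zero h4
  have hinj : Function.Injective (algebraMap ℚ[X] L) := by
    rw [injective_iff_map_eq_zero]
    intro g hg
    by_contra hg0
    have h1 : π ((toB ℚ).symm (C g)) = 0 := by
      rw [hπ, AlgEquiv.apply_symm_apply, aeval_C, hg]
    obtain ⟨W, hW⟩ := (hker _).1 h1
    have h2 : C g = toB ℚ P * toB ℚ W := by
      rw [← map_mul, ← hW, AlgEquiv.apply_symm_apply]
    have h3 : (C g : ℚ[X][X]).natDegree = (toB ℚ P).natDegree + (toB ℚ W).natDegree := by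
      rw [h2]
      apply hmonic.natDegree_mul'
      intro h4
      rw [h4, mul_zero] at h2
      exact hg0 (C_eq_zero.1 h2)
    rw [natDegree_C] at h3
    omega
  have hFS : FaithfulSMul ℚ[X] L := (faithfulSMul_iff_algebraMap_injective _ _).2 hinj
  have hTF : Module.IsTorsionFree ℚ[X] L := .trans_faithfulSMul ℚ[X] L L
  let K := FractionRing ℚ[X]
  let _ : Algebra K L := (IsFractionRing.lift (K := K) hinj).toAlgebra
  have hTower : IsScalarTower ℚ[X] K L := IsScalarTower.of_algebraMap_eq fun g =>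
    (IsFractionRing.lift_algebraMap hinj g).symm
  have hPx : aeval x (toB ℚ P) = 0 := by rw [← hπ]; exact (hker P).2 dvd_rfl
  have hxint : IsIntegral ℚ[X] x := ⟨toB ℚ P, hmonic, hPx⟩
  have hmin : toB ℚ P = minpoly ℚ[X] x := by
    apply IsIntegrallyClosed.minpoly.unique hmonic hPx
    intro Q hQ hQx
    have h1 : π ((toB ℚ).symm Q) = 0 := by
      rw [hπ, AlgEquiv.apply_symm_apply, hQx]
    obtain ⟨W, hW⟩ := (hker _).1 h1
    have h2 : Q = toB ℚ P * toB ℚ W := by
      rw [← map_mul, ← hW, AlgEquiv.apply_symm_apply]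
    exact degree_le_of_dvd ⟨_, h2⟩ hQ.ne_zero
  have hxK : IsIntegral K x := hxint.tower_top
  have hadj : Algebra.adjoin K {x} = ⊤ := by
    rw [eq_top_iff]
    intro u _
    rw [← IntermediateField.adjoin_simple_toSubalgebra_of_isAlgebraic hxK.isAlgebraic]
    obtain ⟨w1, w2, h1, h2⟩ := hsurj u
    have h3 : ∀ w, π w ∈ IntermediateField.adjoin K {x} := by
      intro w
      rw [hπ, aeval_eq_sum_range]
      apply sum_mem
      intro i _
      rw [Algebra.smul_def, IsScalarTower.algebraMap_apply ℚ[X] K L]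
      exact mul_mem (IntermediateField.algebraMap_mem _ _)
        (pow_mem (IntermediateField.mem_adjoin_simple_self K x) i)
    have h4 : u = π w1 / π w2 := by rw [← h2]; field_simp
    rw [IntermediateField.mem_toSubalgebra, h4]
    exact div_mem (h3 _) (h3 _)
  have hfin : FiniteDimensional K L := by
    have h1 := hxK.fg_adjoin_singleton
    rw [hadj] at h1
    exact ⟨by simpa using h1⟩
  have hcK : CharZero K := inferInstance
  have hsep : Algebra.IsSeparable K L := inferInstance
  -- integrality of `z`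
  have hzint : IsIntegral ℚ[X] z := by
    obtain ⟨w, hw⟩ := hz
    apply IsIntegral.of_pow hp
    rw [← hw, hπ, aeval_eq_sum_range]
    apply IsIntegral.sum
    intro i _
    rw [Algebra.smul_def]
    exact isIntegral_algebraMap.mul (hxint.pow i)
  have hdual : z ∈ (Algebra.traceForm K L).dualSubmodule
      (Subalgebra.toSubmodule (Algebra.adjoin ℚ[X] {x})) := by
    rw [LinearMap.BilinForm.mem_dualSubmodule]
    intro w hw
    have h1 : IsIntegral ℚ[X] (Algebra.traceForm K L z w) := by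
      rw [Algebra.traceForm_apply]
      apply Algebra.isIntegral_trace
      exact hzint.mul (adjoin_le_integralClosure hxint hw)
    obtain ⟨c, hc⟩ := (IsIntegrallyClosed.isIntegral_iff (K := K)).1 h1
    rw [Submodule.mem_one]
    exact ⟨c, hc⟩
  rw [traceForm_dualSubmodule_adjoin ℚ[X] K hadj hxint] at hdual
  obtain ⟨w, hw, hwz⟩ := hdual
  rw [SetLike.mem_coe, Subalgebra.mem_toSubmodule, Algebra.adjoin_singleton_eq_range_aeval] at hw
  obtain ⟨W, hW⟩ := hw
  have hder : aeval x (derivative (minpoly K x)) = π (MvPolynomial.pderiv 0 P) := by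
    rw [hπ, toB_pderiv, minpoly.isIntegrallyClosed_eq_field_fractions' K hxint, ← hmin,
      derivative_map, aeval_map_algebraMap]
  have hder0 : aeval x (derivative (minpoly K x)) ≠ 0 :=
    (Algebra.IsSeparable.isSeparable K x).aeval_derivative_ne_zero (minpoly.aeval _ _)
  refine ⟨(toB ℚ).symm W, ?_⟩
  rw [hπ, AlgEquiv.apply_symm_apply, ← hder, ← hwz]
  rw [DistribSMul.toLinearMap_apply, smul_eq_mul, mul_inv_cancel_left₀ hder0]
  exact hW

lemma swap_swap (P : MvPolynomial (Fin 2) ℚ) :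
    MvPolynomial.rename (Equiv.swap (0 : Fin 2) 1)
      (MvPolynomial.rename (Equiv.swap (0 : Fin 2) 1) P) = P := by
  rw [MvPolynomial.rename_rename]
  have : (Equiv.swap (0 : Fin 2) 1 : Fin 2 → Fin 2) ∘ (Equiv.swap (0 : Fin 2) 1) = id := by
    funext i
    simp
  rw [this, MvPolynomial.rename_id_apply]

/-- On a nonsingular curve, a function with a polynomial power is a polynomial. -/
theorem normal (π : MvPolynomial (Fin 2) ℚ →ₐ[ℚ] L) (P : MvPolynomial (Fin 2) ℚ)
    (hmonic : (toB ℚ P).Monic)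
    (hmonic' : (toB ℚ (MvPolynomial.rename (Equiv.swap (0 : Fin 2) 1) (-P))).Monic)
    (hker : ∀ w, π w = 0 ↔ P ∣ w)
    (hsurj : ∀ z : L, ∃ w1 w2, π w2 ≠ 0 ∧ π w2 * z = π w1)
    (hns : (1 : MvPolynomial (Fin 2) ℚ) ∈ Ideal.span
      ({P, MvPolynomial.pderiv 0 P, MvPolynomial.pderiv 1 P} : Set (MvPolynomial (Fin 2) ℚ)))
    (z : L) (p : ℕ) (hp : 0 < p) (hz : ∃ w, π w = z ^ p) : ∃ w, π w = z := by
  obtain ⟨w0, hw0⟩ := trace_dual π P hmonic hker hsurj z p hp hz
  obtain ⟨w1, hw1⟩ : ∃ w, π w = π (MvPolynomial.pderiv 1 P) * z := by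
    obtain ⟨w, hw⟩ := trace_dual (π.comp (MvPolynomial.rename (Equiv.swap (0 : Fin 2) 1)))
      (MvPolynomial.rename (Equiv.swap (0 : Fin 2) 1) (-P)) hmonic' (by
        intro w
        rw [AlgHom.comp_apply, hker]
        constructor
        · rintro ⟨u, hu⟩
          refine ⟨-MvPolynomial.rename (Equiv.swap (0 : Fin 2) 1) u, ?_⟩
          rw [map_neg, neg_mul_neg, ← map_mul, ← hu, swap_swap]
        · rintro ⟨u, hu⟩
          refine ⟨-MvPolynomial.rename (Equiv.swap (0 : Fin 2) 1) u, ?_⟩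
          rw [hu, map_mul, swap_swap]
          ring) (by
        intro z
        obtain ⟨w1, w2, h1, h2⟩ := hsurj z
        refine ⟨MvPolynomial.rename (Equiv.swap (0 : Fin 2) 1) w1,
          MvPolynomial.rename (Equiv.swap (0 : Fin 2) 1) w2, ?_, ?_⟩
        · rw [AlgHom.comp_apply, swap_swap]; exact h1
        · rw [AlgHom.comp_apply, AlgHom.comp_apply, swap_swap, swap_swap]; exact h2) z p hp (by
        obtain ⟨w, hw⟩ := hz
        refine ⟨MvPolynomial.rename (Equiv.swap (0 : Fin 2) 1) w, ?_⟩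
        rw [AlgHom.comp_apply, swap_swap]
        exact hw)
    refine ⟨-MvPolynomial.rename (Equiv.swap (0 : Fin 2) 1) w, ?_⟩
    have h1 : MvPolynomial.pderiv 0 (MvPolynomial.rename (Equiv.swap (0 : Fin 2) 1) P) =
        MvPolynomial.rename (Equiv.swap (0 : Fin 2) 1) (MvPolynomial.pderiv 1 P) := by
      have h2 := MvPolynomial.pderiv_rename (R := ℚ) (Equiv.swap (0 : Fin 2) 1).injective 1 P
      rw [Equiv.swap_apply_right] at h2
      exact h2
    rw [AlgHom.comp_apply, AlgHom.comp_apply, map_neg, map_neg, map_neg, map_neg, h1,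
      swap_swap] at hw
    rw [map_neg, hw]
    ring
  rw [Ideal.mem_span_insert] at hns
  obtain ⟨a, u, hu, h1⟩ := hns
  rw [Ideal.mem_span_pair] at hu
  obtain ⟨c, d, h2⟩ := hu
  have hP0 : π P = 0 := (hker P).2 dvd_rfl
  refine ⟨c * w0 + d * w1, ?_⟩
  have h3 : (1 : L) = π c * π (MvPolynomial.pderiv 0 P) + π d * π (MvPolynomial.pderiv 1 P) := by
    have h4 := congrArg π h1
    rw [map_one, map_add, map_mul, hP0, mul_zero, zero_add, ← h2, map_add, map_mul, map_mul] at h4
    exact h4
  rw [map_add, map_mul, map_mul, hw0, hw1]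
  linear_combination (-z) * h3

end Pool.Agent.H57.TB
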