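import Pool.Agent.H57.TB.Place
import Pool.Agent.H57.TB.Normal

set_option autoImplicit false

/-! Leading forms for the weights `n` of `x` and `m` of `y`. -/

open Polynomial

namespace Pool.Agent.H57.TB

open Pool.Agent.H322R2

variable {R : Type} [CommRing R]

/-- All monomials of `f` have weight less than `d`. -/
def LW (m n d : ℕ) (f : MvPolynomial (Fin 2) R) : Prop := ∀ k ∈ f.support, wt m n k < d

/-- All monomials of `f` have weight at most `d`. -/
def LE (m n d : ℕ) (f : MvPolynomial (Fin 2) R) : Prop := ∀ k ∈ f.support, wt m n k ≤ d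

lemma LW.le {m n d : ℕ} {f : MvPolynomial (Fin 2) R} (h : LW m n d f) : LE m n d f :=
  fun k hk => (h k hk).le

lemma LW.add {m n d : ℕ} {f g : MvPolynomial (Fin 2) R} (hf : LW m n d f) (hg : LW m n d g) :
    LW m n d (f + g) := by
  classical
  intro k hk
  rcases Finset.mem_union.1 (MvPolynomial.support_add hk) with h | h
  · exact hf k h
  · exact hg k h

lemma LE.add {m n d : ℕ} {f g : MvPolynomial (Fin 2) R} (hf : LE m n d f) (hg : LE m n d g) :
    LE m n d (f + g) := by
  classical
  intro k hk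
  rcases Finset.mem_union.1 (MvPolynomial.support_add hk) with h | h
  · exact hf k h
  · exact hg k h

lemma LW.neg {m n d : ℕ} {f : MvPolynomial (Fin 2) R} (hf : LW m n d f) : LW m n d (-f) := by
  intro k hk
  rw [MvPolynomial.support_neg] at hk
  exact hf k hk

lemma LW.sub {m n d : ℕ} {f g : MvPolynomial (Fin 2) R} (hf : LW m n d f) (hg : LW m n d g) :
    LW m n d (f - g) := by
  rw [sub_eq_add_neg]
  exact hf.add hg.neg

lemma wt_add (m n : ℕ) (k l : Fin 2 →₀ ℕ) : wt m n (k + l) = wt m n k + wt m n l := by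
  simp only [wt, Finsupp.coe_add, Pi.add_apply]
  ring

lemma LW.mul {m n d e : ℕ} {f g : MvPolynomial (Fin 2) R} (hf : LW m n d f) (hg : LE m n e g) :
    LW m n (d + e) (f * g) := by
  classical
  intro k hk
  obtain ⟨a, ha, b, hb, rfl⟩ := Finset.mem_add.1 (MvPolynomial.support_mul f g hk)
  rw [wt_add]
  have := hf a ha
  have := hg b hb
  omega

lemma LE.mul {m n d e : ℕ} {f g : MvPolynomial (Fin 2) R} (hf : LE m n d f) (hg : LE m n e g) :
    LE m n (d + e) (f * g) := by
  classical
  intro k hk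
  obtain ⟨a, ha, b, hb, rfl⟩ := Finset.mem_add.1 (MvPolynomial.support_mul f g hk)
  rw [wt_add]
  have := hf a ha
  have := hg b hb
  omega

/-- `f` has the leading form `M` of weight `d`. -/
def IsLd (m n d : ℕ) (M f : MvPolynomial (Fin 2) R) : Prop := LE m n d M ∧ LW m n d (f - M)

lemma IsLd.le {m n d : ℕ} {M f : MvPolynomial (Fin 2) R} (h : IsLd m n d M f) : LE m n d f := by
  have h1 : f = M + (f - M) := by ring
  rw [h1]
  exact h.1.add h.2.le

lemma IsLd.mul {m n d e : ℕ} {M N f g : MvPolynomial (Fin 2) R} (hf : IsLd m n d M f)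
    (hg : IsLd m n e N g) : IsLd m n (d + e) (M * N) (f * g) := by
  refine ⟨hf.1.mul hg.1, ?_⟩
  have h1 : f * g - M * N = (f - M) * g + (g - N) * M := by ring
  rw [h1]
  apply LW.add
  · exact hf.2.mul hg.le
  · rw [add_comm d e]
    exact hg.2.mul hf.1

lemma LE.one {m n : ℕ} : LE m n 0 (1 : MvPolynomial (Fin 2) R) := by
  classical
  intro k hk
  have h1 : k = 0 := by
    rw [MvPolynomial.mem_support_iff, MvPolynomial.coeff_one] at hk
    by_contra h
    exact hk (if_neg fun h2 => h h2.symm)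
  rw [h1, wt]
  simp

lemma IsLd.one {m n : ℕ} : IsLd m n 0 (1 : MvPolynomial (Fin 2) R) 1 := by
  refine ⟨LE.one, ?_⟩
  rw [sub_self]
  intro k hk
  simp at hk

lemma IsLd.pow {m n d : ℕ} {M f : MvPolynomial (Fin 2) R} (hf : IsLd m n d M f) (j : ℕ) :
    IsLd m n (d * j) (M ^ j) (f ^ j) := by
  induction j with
  | zero => rw [mul_zero, pow_zero, pow_zero]; exact IsLd.one
  | succ j ih => rw [mul_add, mul_one, pow_succ, pow_succ]; exact ih.mul hf

lemma IsLd.prod {ι : Type} (s : Finset ι) {m n : ℕ} (d : ι → ℕ) (M f : ι → MvPolynomial (Fin 2) R)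
    (hf : ∀ i ∈ s, IsLd m n (d i) (M i) (f i)) :
    IsLd m n (∑ i ∈ s, d i) (∏ i ∈ s, M i) (∏ i ∈ s, f i) := by
  classical
  induction s using Finset.induction_on with
  | empty => simpa using IsLd.one
  | insert i s hi ih =>
    rw [Finset.sum_insert hi, Finset.prod_insert hi, Finset.prod_insert hi]
    exact (hf i (Finset.mem_insert_self i s)).mul
      (ih fun j hj => hf j (Finset.mem_insert_of_mem hj))

lemma LE.X0_pow {m n : ℕ} (b : ℕ) : LE m n (n * b) (MvPolynomial.X 0 ^ b :
    MvPolynomial (Fin 2) R) := by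
  classical
  intro k hk
  have h1 : k = Finsupp.single 0 b := by
    rw [MvPolynomial.mem_support_iff, MvPolynomial.X_pow_eq_monomial,
      MvPolynomial.coeff_monomial] at hk
    by_contra h
    exact hk (if_neg fun h2 => h h2.symm)
  rw [h1, wt]
  simp

lemma LE.X1_pow {m n : ℕ} (b : ℕ) : LE m n (m * b) (MvPolynomial.X 1 ^ b :
    MvPolynomial (Fin 2) R) := by
  classical
  intro k hk
  have h1 : k = Finsupp.single 1 b := by
    rw [MvPolynomial.mem_support_iff, MvPolynomial.X_pow_eq_monomial,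
      MvPolynomial.coeff_monomial] at hk
    by_contra h
    exact hk (if_neg fun h2 => h h2.symm)
  rw [h1, wt]
  simp

/-- the condition in terms of the coefficients -/
lemma isLd_of_coeff {m n b : ℕ} {f : MvPolynomial (Fin 2) R}
    (h1 : f.coeff (Finsupp.single 0 b) = 1)
    (h2 : ∀ k ∈ f.support, k ≠ Finsupp.single 0 b → wt m n k < n * b) :
    IsLd m n (n * b) (MvPolynomial.X 0 ^ b) f := by
  classical
  refine ⟨LE.X0_pow b, ?_⟩
  intro k hk
  rw [MvPolynomial.mem_support_iff, MvPolynomial.coeff_sub, MvPolynomial.X_pow_eq_monomial,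
    MvPolynomial.coeff_monomial] at hk
  by_cases h3 : Finsupp.single 0 b = k
  · rw [← h3, h1, if_pos rfl, sub_self] at hk
    exact absurd rfl hk
  · rw [if_neg h3, sub_zero] at hk
    exact h2 k (MvPolynomial.mem_support_iff.2 hk) fun h => h3 h.symm

lemma coeff_of_isLd {m n b : ℕ} {f : MvPolynomial (Fin 2) R}
    (h : IsLd m n (n * b) (MvPolynomial.X 0 ^ b) f) :
    f.coeff (Finsupp.single 0 b) = 1 ∧
      ∀ k ∈ f.support, k ≠ Finsupp.single 0 b → wt m n k < n * b := by
  classical
  constructor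
  · by_contra hcon
    have h1 : Finsupp.single 0 b ∈ (f - MvPolynomial.X 0 ^ b).support := by
      rw [MvPolynomial.mem_support_iff, MvPolynomial.coeff_sub, MvPolynomial.X_pow_eq_monomial,
        MvPolynomial.coeff_monomial, if_pos rfl]
      exact sub_ne_zero.2 hcon
    have h2 := h.2 _ h1
    rw [wt] at h2
    simp at h2
  · intro k hk hkb
    apply h.2
    rw [MvPolynomial.mem_support_iff] at hk ⊢
    rw [MvPolynomial.coeff_sub, MvPolynomial.X_pow_eq_monomial,
      MvPolynomial.coeff_monomial, if_neg fun h2 => hkb h2.symm, sub_zero]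
    exact hk

lemma isLd_aeval {m n : ℕ} (hm : 1 ≤ m) (h : R[X]) (hh : h.Monic) :
    IsLd m n (m * h.natDegree) (MvPolynomial.X 1 ^ h.natDegree)
      (aeval (MvPolynomial.X 1 : MvPolynomial (Fin 2) R) h) := by
  classical
  refine ⟨LE.X1_pow _, ?_⟩
  rw [aeval_eq_sum_range, Finset.sum_range_succ, hh.coeff_natDegree, one_smul, add_sub_cancel_right]
  intro k hk
  have h1 := MvPolynomial.support_sum hk
  rw [Finset.mem_biUnion] at h1
  obtain ⟨i, hi, h2⟩ := h1
  have h3 := MvPolynomial.support_smul h2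
  have h4 := LE.X1_pow (m := m) (n := n) (R := R) i k h3
  rw [Finset.mem_range] at hi
  exact lt_of_le_of_lt h4 (Nat.mul_lt_mul_of_pos_left hi hm)

/-- Monic polynomials. -/
lemma toB_monic (P : MvPolynomial (Fin 2) ℚ) (d : ℕ) (h1 : P.coeff (Finsupp.single 0 d) = 1)
    (h2 : ∀ k ∈ P.support, k ≠ Finsupp.single 0 d → k 0 < d) :
    (toB ℚ P).Monic ∧ (toB ℚ P).natDegree = d := by
  have hc : (toB ℚ P).coeff d = 1 := by
    ext i
    rw [coeff_toB', coeff_one]
    by_cases hi : i = 0
    · rw [if_pos hi, hi, Finsupp.single_zero, add_zero, h1]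
    · rw [if_neg hi]
      by_contra h
      have h3 := h2 _ (MvPolynomial.mem_support_iff.2 h) (by
        intro h4
        have h5 := DFunLike.congr_fun h4 1
        simp at h5
        exact hi h5)
      simp at h3
  have hc' : ∀ j, d < j → (toB ℚ P).coeff j = 0 := by
    intro j hj
    ext i
    rw [coeff_toB', coeff_zero]
    by_contra h
    have h3 := h2 _ (MvPolynomial.mem_support_iff.2 h) (by
      intro h4
      have h5 := DFunLike.congr_fun h4 0
      simp at h5
      omega)
    simp at h3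
    omega
  have hle : (toB ℚ P).natDegree ≤ d := natDegree_le_iff_coeff_eq_zero.2 hc'
  have hm : (toB ℚ P).Monic := monic_of_natDegree_le_of_coeff_eq_one d hle hc
  refine ⟨hm, le_antisymm hle ?_⟩
  apply le_natDegree_of_ne_zero
  rw [hc]
  exact one_ne_zero

end Pool.Agent.H57.TB
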