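import Mathlib

set_option autoImplicit false

/-! A family of more than `(p - 1) #S` integers, whose valuations outside of `S` are divisible by
`p`, has a nonempty subfamily whose product is a `p`-th power up to the sign. -/

open Finset

namespace Pool.Agent.H57.TB

/-- a linear relation between more vectors than the dimension -/
theorem lin_rel (p : ℕ) [hp : Fact p.Prime] (r : ℕ) {σ : Type} (S : Finset σ)
    (hS : S.card < r) (v : Fin r → σ → ZMod p) :
    ∃ k : Fin r → ℕ, (∀ i, k i < p) ∧ (∃ i, k i ≠ 0) ∧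
      ∀ l ∈ S, ∑ i, (k i : ZMod p) * v i l = 0 := by
  classical
  let T : (Fin r → ZMod p) →ₗ[ZMod p] (S → ZMod p) :=
    { toFun := fun x l => ∑ i, x i * v i l
      map_add' := fun x y => by
        funext l
        simp only [Pi.add_apply, add_mul, Finset.sum_add_distrib]
      map_smul' := fun c x => by
        funext l
        simp only [Pi.smul_apply, smul_eq_mul, RingHom.id_apply, Finset.mul_sum, mul_assoc] }
  have h1 : LinearMap.ker T ≠ ⊥ := by
    apply LinearMap.ker_ne_bot_of_finrank_lt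
    rw [Module.finrank_fintype_fun_eq_card, Module.finrank_fintype_fun_eq_card, Fintype.card_fin,
      Fintype.card_coe]
    exact hS
  obtain ⟨x, hx, hx0⟩ := (Submodule.ne_bot_iff _).1 h1
  obtain ⟨i₀, hi₀⟩ := Function.ne_iff.1 hx0
  refine ⟨fun i => (x i).val, fun i => ZMod.val_lt _, ⟨i₀, ?_⟩, ?_⟩
  · intro h
    exact hi₀ ((ZMod.val_eq_zero _).1 h)
  · intro l hl
    have h2 := congrFun (LinearMap.mem_ker.1 hx) ⟨l, hl⟩
    simp only [ZMod.natCast_val, ZMod.cast_id', id_eq]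
    exact h2

/-- an integer with valuations divisible by `p` is a `p`-th power up to the sign -/
lemma pow_of_val (p : ℕ) (a : ℤ) (ha : a ≠ 0)
    (h : ∀ l : ℕ, l.Prime → p ∣ padicValInt l a) : ∃ z : ℤ, a = z ^ p ∨ a = -z ^ p := by
  have hn : a.natAbs ≠ 0 := Int.natAbs_ne_zero.2 ha
  obtain ⟨z, hz⟩ : ∃ z : ℕ, a.natAbs = z ^ p := by
    refine ⟨a.natAbs.factorization.prod fun l e => l ^ (e / p), ?_⟩
    rw [Finsupp.prod, ← Finset.prod_pow]
    conv_lhs => rw [← Nat.prod_factorization_pow_eq_self hn]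
    rw [Finsupp.prod]
    apply Finset.prod_congr rfl
    intro l hl
    rw [← pow_mul]
    congr 1
    have hlp : l.Prime := by
      rw [Nat.support_factorization] at hl
      exact Nat.prime_of_mem_primeFactors hl
    have h1 := h l hlp
    rw [padicValInt, ← Nat.factorization_def _ hlp] at h1
    exact (Nat.div_mul_cancel h1).symm
  refine ⟨(z : ℤ), ?_⟩
  have h1 : ((a.natAbs : ℕ) : ℤ) = (z : ℤ) ^ p := by rw [hz]; push_cast; rfl
  rcases Int.natAbs_eq a with h2 | h2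
  · left; rw [h2, h1]
  · right; rw [h2, h1]

/-- If `a b ^ (p - 1)` is a `p`-th power up to the sign, then `a` and `b` are in the same class. -/
lemma same_class (p : ℕ) (hp : 1 ≤ p) (a b z : ℤ) (hb : b ≠ 0)
    (h : a * b ^ (p - 1) = z ^ p ∨ a * b ^ (p - 1) = -z ^ p) :
    ∃ d s g : ℤ, d ≠ 0 ∧ g ≠ 0 ∧ a = d * s ^ p ∧ (b = d * g ^ p ∨ b = -(d * g ^ p)) := by
  obtain ⟨ε, hε, h1⟩ : ∃ ε : ℤ, (ε = 1 ∨ ε = -1) ∧ a * b ^ (p - 1) = ε * z ^ p := by
    rcases h with h | h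
    · exact ⟨1, Or.inl rfl, by rw [h, one_mul]⟩
    · exact ⟨-1, Or.inr rfl, by rw [h, neg_one_mul]⟩
  have hεε : ε * ε = 1 := by rcases hε with rfl | rfl <;> norm_num
  have h2 : a * b ^ p = ε * b * z ^ p := by
    have : b ^ p = b ^ (p - 1) * b := by rw [← pow_succ]; congr 1; omega
    rw [this]
    linear_combination b * h1
  obtain ⟨g0, hg0⟩ : ∃ g0 : ℤ, g0 = Int.gcd z b := ⟨_, rfl⟩
  have hg0n : g0 ≠ 0 := by
    rw [hg0]
    simp only [ne_eq, Int.natCast_eq_zero]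
    rw [Int.gcd_eq_zero_iff]
    tauto
  obtain ⟨z', hz'⟩ : g0 ∣ z := by rw [hg0]; exact Int.gcd_dvd_left ..
  obtain ⟨g, hg⟩ : g0 ∣ b := by rw [hg0]; exact Int.gcd_dvd_right ..
  have hgn : g ≠ 0 := by rintro rfl; apply hb; rw [hg, mul_zero]
  have hcop : IsCoprime z' g := by
    rw [Int.isCoprime_iff_gcd_eq_one]
    have h3 : Int.gcd z b = g0.natAbs * Int.gcd z' g := by
      rw [← Int.gcd_mul_left, ← hz', ← hg]
    have h4 : g0.natAbs = Int.gcd z b := by rw [hg0]; rfl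
    rw [h4] at h3
    have h5 : 0 < Int.gcd z b := by rw [← h4]; exact Int.natAbs_pos.2 hg0n
    exact Nat.eq_of_mul_eq_mul_left h5 (by rw [mul_one]; exact h3.symm)
  have h3 : a * g ^ p = ε * b * z' ^ p := by
    apply mul_left_cancel₀ (pow_ne_zero p hg0n)
    calc g0 ^ p * (a * g ^ p) = a * (g0 * g) ^ p := by rw [mul_pow]; ring
      _ = a * b ^ p := by rw [← hg]
      _ = ε * b * z ^ p := h2
      _ = ε * b * (g0 * z') ^ p := by rw [← hz']
      _ = _ := by rw [mul_pow]; ring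
  have h4 : g ^ p ∣ b := by
    have h5 : g ^ p ∣ (ε * b) * z' ^ p := ⟨a, by rw [← h3]; ring⟩
    have h6 : g ^ p ∣ ε * b := (hcop.symm.pow (m := p) (n := p)).dvd_of_dvd_mul_right h5
    have h7 : g ^ p ∣ ε * (ε * b) := h6.mul_left ε
    rwa [← mul_assoc, hεε, one_mul] at h7
  obtain ⟨d', hd'⟩ := h4
  have hd'n : d' ≠ 0 := by rintro rfl; apply hb; rw [hd', mul_zero]
  have hεn : ε ≠ 0 := by rcases hε with rfl | rfl <;> norm_num
  refine ⟨ε * d', z', g, mul_ne_zero hεn hd'n, hgn, ?_, ?_⟩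
  · apply mul_right_cancel₀ (pow_ne_zero p hgn)
    rw [h3, hd']
    ring
  · rcases hε with rfl | rfl
    · left; rw [hd']; ring
    · right; rw [hd']; ring

/-- the pigeonhole principle for the classes -/
theorem pigeon (p : ℕ) (hp : p.Prime) (r : ℕ) (S : Finset ℕ) (hS : S.card < r)
    (φ γ : Fin r → ℤ) (hφ : ∀ i, φ i ≠ 0) (hγ : ∀ i, γ i ≠ 0)
    (hφS : ∀ i (l : ℕ), l.Prime → l ∉ S → p ∣ padicValInt l (φ i))
    (hγS : ∀ i (l : ℕ), l.Prime → l ∉ S → p ∣ padicValInt l (γ i)) :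
    ∃ k : Fin r → ℕ, (∀ i, k i < p) ∧ (∃ i, k i ≠ 0) ∧ ∃ d s g : ℤ, d ≠ 0 ∧ g ≠ 0 ∧
      ∏ i, φ i ^ k i = d * s ^ p ∧
      (∏ i, γ i ^ k i = d * g ^ p ∨ ∏ i, γ i ^ k i = -(d * g ^ p)) := by
  classical
  have : Fact p.Prime := ⟨hp⟩
  obtain ⟨k, hk, hk0, h0⟩ := lin_rel p r S hS fun i l =>
    ((padicValInt l (φ i * γ i ^ (p - 1)) : ℕ) : ZMod p)
  refine ⟨k, hk, hk0, ?_⟩
  have hc : ∀ i, φ i * γ i ^ (p - 1) ≠ 0 := fun i => mul_ne_zero (hφ i) (pow_ne_zero _ (hγ i))
  have hck : ∀ i, (φ i * γ i ^ (p - 1)) ^ k i ≠ 0 := fun i => pow_ne_zero _ (hc i)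
  have hprod : ∏ i, (φ i * γ i ^ (p - 1)) ^ k i ≠ 0 := Finset.prod_ne_zero_iff.2 fun i _ => hck i
  have hval : ∀ l : ℕ, l.Prime → p ∣ padicValInt l (∏ i, (φ i * γ i ^ (p - 1)) ^ k i) := by
    intro l hl
    have : Fact l.Prime := ⟨hl⟩
    have h1 : ∀ J : Finset (Fin r), padicValInt l (∏ i ∈ J, (φ i * γ i ^ (p - 1)) ^ k i) =
        ∑ i ∈ J, k i * padicValInt l (φ i * γ i ^ (p - 1)) := by
      intro J
      induction J using Finset.induction_on with
      | empty => simp [padicValInt]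
      | insert a J ha ih =>
        rw [Finset.prod_insert ha, Finset.sum_insert ha, ← ih]
        rw [padicValInt.mul (hck a) (Finset.prod_ne_zero_iff.2 fun i _ => hck i)]
        congr 1
        rw [padicValInt, padicValInt, Int.natAbs_pow, padicValNat.pow]
    rw [h1]
    by_cases hlS : l ∈ S
    · have h2 : ∑ i, ((k i : ℕ) : ZMod p) *
          ((padicValInt l (φ i * γ i ^ (p - 1)) : ℕ) : ZMod p) = 0 := h0 l hlS
      rw [← ZMod.natCast_eq_zero_iff]
      push_cast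
      exact h2
    · apply Finset.dvd_sum
      intro i _
      apply dvd_mul_of_dvd_right
      rw [padicValInt.mul (hφ i) (pow_ne_zero _ (hγ i))]
      apply dvd_add (hφS i l hl hlS)
      have h3 : padicValInt l (γ i ^ (p - 1)) = (p - 1) * padicValInt l (γ i) := by
        rw [padicValInt, padicValInt, Int.natAbs_pow, padicValNat.pow]
      rw [h3]
      exact (hγS i l hl hlS).mul_left _
  obtain ⟨z, hz⟩ := pow_of_val p _ hprod hval
  have h4 : ∏ i, (φ i * γ i ^ (p - 1)) ^ k i =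
      (∏ i, φ i ^ k i) * (∏ i, γ i ^ k i) ^ (p - 1) := by
    rw [← Finset.prod_pow, ← Finset.prod_mul_distrib]
    apply Finset.prod_congr rfl
    intro i _
    rw [mul_pow, ← pow_mul, ← pow_mul, mul_comm (p - 1)]
  rw [h4] at hz
  exact same_class p hp.one_lt.le _ _ z
    (Finset.prod_ne_zero_iff.2 fun i _ => pow_ne_zero _ (hγ i)) hz

end Pool.Agent.H57.TB
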