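import Pool.Agent.H57.TB.Gen
import Pool.Agent.H57.TB.Pig
import Pool.Graph.R_seed8.W257.G7

set_option autoImplicit false

/-! More independent torsion functions than bad primes. -/

open Polynomial IntermediateField

namespace Pool.Agent.H57.TB

open Pool.Agent.H322R2 Pool.Agent.K1H93.TG

/-- The valuation of the value of a torsion function at an integer point. -/
lemma val_torsion (p : ℕ) (F f g h : MvPolynomial (Fin 2) ℤ) (a : ℤ)
    (h1 : F ∣ f * g - MvPolynomial.C a * h ^ p) (l : ℕ) (hl : l.Prime)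
    (h2 : Ideal.span ({MvPolynomial.C (l : ℤ), F, f, g, h} : Set (MvPolynomial (Fin 2) ℤ)) = ⊤)
    (hla : ¬ (l : ℤ) ∣ a) (x y : ℤ)
    (hxy : MvPolynomial.eval ![x, y] F = 0) (hf : MvPolynomial.eval ![x, y] f ≠ 0) :
    p ∣ padicValInt l (MvPolynomial.eval ![x, y] f) := by
  have : Fact l.Prime := ⟨hl⟩
  obtain ⟨φ, hφ⟩ : ∃ φ, φ = MvPolynomial.eval ![x, y] f := ⟨_, rfl⟩
  obtain ⟨ψ, hψ⟩ : ∃ ψ, ψ = MvPolynomial.eval ![x, y] g := ⟨_, rfl⟩
  obtain ⟨χ, hχ⟩ : ∃ χ, χ = MvPolynomial.eval ![x, y] h := ⟨_, rfl⟩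
  rw [← hφ] at hf ⊢
  have h3 : φ * ψ = a * χ ^ p := by
    obtain ⟨w, hw⟩ := h1
    have h4 := congrArg (MvPolynomial.eval ![x, y]) hw
    rw [map_mul, hxy, zero_mul, map_sub, map_mul, map_mul, map_pow, MvPolynomial.eval_C, ← hφ,
      ← hψ, ← hχ] at h4
    linarith
  have h5 : ¬ ((l : ℤ) ∣ φ ∧ (l : ℤ) ∣ ψ ∧ (l : ℤ) ∣ χ) := by
    rintro ⟨h6, h7, h8⟩
    have h9 : (Ideal.span ({MvPolynomial.C (l : ℤ), F, f, g, h} :
        Set (MvPolynomial (Fin 2) ℤ))) ≤
        (Ideal.span {(l : ℤ)}).comap (MvPolynomial.eval ![x, y]) := by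
      rw [Ideal.span_le]
      rintro z (rfl | rfl | rfl | rfl | rfl)
      · rw [SetLike.mem_coe, Ideal.mem_comap, MvPolynomial.eval_C]
        exact Ideal.mem_span_singleton_self _
      · rw [SetLike.mem_coe, Ideal.mem_comap, hxy]
        exact zero_mem _
      · rw [SetLike.mem_coe, Ideal.mem_comap, ← hφ]
        exact Ideal.mem_span_singleton.2 h6
      · rw [SetLike.mem_coe, Ideal.mem_comap, ← hψ]
        exact Ideal.mem_span_singleton.2 h7
      · rw [SetLike.mem_coe, Ideal.mem_comap, ← hχ]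
        exact Ideal.mem_span_singleton.2 h8
    have h10 := h9 (h2 ▸ Submodule.mem_top (x := (1 : MvPolynomial (Fin 2) ℤ)))
    rw [Ideal.mem_comap, map_one, Ideal.mem_span_singleton] at h10
    exact (Nat.prime_iff_prime_int.1 hl).not_unit (isUnit_of_dvd_one h10)
  by_cases h6 : (l : ℤ) ∣ φ
  swap
  · rw [padicValInt.eq_zero_of_not_dvd h6]
    exact dvd_zero _
  have ha0 : a ≠ 0 := by rintro rfl; exact hla (dvd_zero _)
  by_cases h7 : (l : ℤ) ∣ ψ
  · have h8 : ¬ (l : ℤ) ∣ χ := fun h => h5 ⟨h6, h7, h⟩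
    exfalso
    have h9 : (l : ℤ) ∣ a * χ ^ p := by rw [← h3]; exact h6.mul_right _
    rcases (Nat.prime_iff_prime_int.1 hl).dvd_or_dvd h9 with h10 | h10
    · exact hla h10
    · exact h8 ((Nat.prime_iff_prime_int.1 hl).dvd_of_dvd_pow h10)
  · have hψ0 : ψ ≠ 0 := by rintro rfl; exact h7 (dvd_zero _)
    have hχ0 : χ ^ p ≠ 0 := by
      intro h8
      rw [h8, mul_zero] at h3
      exact (mul_ne_zero hf hψ0) h3
    have h8 := congrArg (padicValInt l) h3
    rw [padicValInt.mul hf hψ0, padicValInt.mul ha0 hχ0, padicValInt.eq_zero_of_not_dvd h7,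
      padicValInt.eq_zero_of_not_dvd hla, add_zero, zero_add] at h8
    rw [h8]
    rw [padicValInt, Int.natAbs_pow, padicValNat.pow]
    exact dvd_mul_right _ _

lemma totalDegree_prod_le {ι : Type} (s : Finset ι) (f : ι → MvPolynomial (Fin 2) ℤ) (D : ℕ)
    (h : ∀ i, (f i).totalDegree ≤ D) : (∏ i ∈ s, f i).totalDegree ≤ s.card * D := by
  refine (MvPolynomial.totalDegree_finsetProd _ _).trans ?_
  rw [← smul_eq_mul]
  exact Finset.sum_le_card_nsmul _ _ _ fun i _ => h i

theorem main (p D r : ℕ) (hp : p.Prime) :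
    ∃ C0 : ℕ,
      ∀ (S : Finset ℕ) (F : MvPolynomial (Fin 2) ℤ) (f g h : Fin r → MvPolynomial (Fin 2) ℤ)
        (a γ : Fin r → ℤ) (N : ℕ), F.totalDegree ≤ D → (∀ i, (f i).totalDegree ≤ D) →
      len F ≤ N → (∀ i, len (f i) ≤ N) → (∀ i, (γ i).natAbs ≤ N) →
      Irreducible (MvPolynomial.map (Int.castRingHom ℚ) F) →
      (∀ i, F ∣ f i * g i - MvPolynomial.C (a i) * (h i) ^ p) →
      (∀ i, γ i ≠ 0) →
      (∀ i (l : ℕ), l.Prime → l ∉ S →
        Ideal.span ({MvPolynomial.C (l : ℤ), F, f i, g i, h i} :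
          Set (MvPolynomial (Fin 2) ℤ)) = ⊤ ∧ ¬ (l : ℤ) ∣ a i ∧ p ∣ padicValInt l (γ i)) →
      S.card < r →
      ∀ (L : Type) [Field L] [Algebra ℚ L] (π : MvPolynomial (Fin 2) ℚ →ₐ[ℚ] L),
      (∀ w, π w = 0 ↔ MvPolynomial.map (Int.castRingHom ℚ) F ∣ w) →
      (∀ z : L, ∃ w1 w2, π w2 ≠ 0 ∧ π w2 * z = π w1) →
      (∀ k : Fin r → ℕ, (∀ i, k i < p) → (∃ i, k i ≠ 0) → ∀ (c : ℚ) (z : L), c ≠ 0 →
        z ^ p ≠ algebraMap ℚ L c * ∏ i, π (MvPolynomial.map (Int.castRingHom ℚ) (f i)) ^ k i) →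
      ∀ A : ValuationSubring L, (∀ q : ℚ, algebraMap ℚ L q ∈ A) →
      ¬ (π (MvPolynomial.X 0) ∈ A ∧ π (MvPolynomial.X 1) ∈ A) →
      ∀ (t : Fin r → L) (w : Fin r → A),
      (∀ i, (w i : L) = π (MvPolynomial.map (Int.castRingHom ℚ) (f i)) * t i ^ p) →
      (∀ i, IsLocalRing.residue A (w i) = (γ i : IsLocalRing.ResidueField A)) →
      ∀ x y : ℤ, MvPolynomial.eval ![x, y] F = 0 →
        max x.natAbs y.natAbs ≤ (C0 * N) ^ C0 := by
  classical
  obtain ⟨P, hP⟩ : ∃ P, P = r * p + 1 := ⟨_, rfl⟩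
  obtain ⟨C1, hC1⟩ := lift_bound p (P * (D + 1)) hp.two_le
    (by rw [hP]; exact Nat.mul_pos (Nat.succ_pos _) (Nat.succ_pos _))
  refine ⟨C1 * (2 * P + 1) + C1, ?_⟩
  intro S F f g h a γ N hFD hfD hlF hlf hγN hirr hT1 hγ hS hr L _ _ π hker hsurj hNS A hQ hA
    t w hw hres x y hxy
  have hcL : CharZero L := algebraRat.charZero L
  have hF0 : F ≠ 0 := by
    rintro rfl
    rw [map_zero] at hirr
    exact hirr.ne_zero rfl
  have hN1 : 1 ≤ N := (one_le_len hF0).trans hlF
  -- the residue field has characteristic zero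
  let φ : ℚ →+* A := (algebraMap ℚ L).codRestrict A.toSubring hQ
  have hcz : CharZero (IsLocalRing.ResidueField A) :=
    charZero_of_injective_ringHom ((IsLocalRing.residue A).comp φ).injective
  have hp0 : p ≠ 0 := hp.ne_zero
  have ht : ∀ i, t i ≠ 0 := by
    intro i h0
    have h1 : w i = 0 := by
      apply Subtype.ext
      rw [hw, h0, zero_pow hp0, mul_zero]
      rfl
    have h2 := hres i
    rw [h1, map_zero] at h2
    exact hγ i (by exact_mod_cast h2.symm)
  have hwu : ∀ i, IsUnit (w i) := by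
    intro i
    rw [← IsLocalRing.residue_ne_zero_iff_isUnit, hres]
    exact_mod_cast hγ i
  -- the main argument
  have key : ∀ (k : Fin r → ℕ), (∀ i, k i < p) → (∃ i, k i ≠ 0) →
      ∀ d s g : ℤ, d ≠ 0 → g ≠ 0 →
      ∏ i, MvPolynomial.eval ![x, y] (f i) ^ k i = d * s ^ p →
      (∏ i, γ i ^ k i = d * g ^ p ∨ ∏ i, γ i ^ k i = -(d * g ^ p)) →
      max x.natAbs y.natAbs ≤
        ((C1 * (2 * P + 1) + C1) * N) ^ (C1 * (2 * P + 1) + C1) := by
    intro k hk hk0 d s g hd hg hds hdg
    have hkP : ∑ i, k i ≤ P := by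
      have h1 : ∑ i, k i ≤ r * p := by
        refine (Finset.sum_le_card_nsmul Finset.univ k p fun i _ => (hk i).le).trans_eq ?_
        rw [Finset.card_univ, Fintype.card_fin, smul_eq_mul]
      omega
    have hdL : (d : L) ≠ 0 := by exact_mod_cast hd
    have hdR : (d : IsLocalRing.ResidueField A) ≠ 0 := by exact_mod_cast hd
    have hresI : IsLocalRing.residue A (∏ i, w i ^ k i) =
        ((∏ i, γ i ^ k i : ℤ) : IsLocalRing.ResidueField A) := by
      rw [map_prod, Int.cast_prod]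
      refine Finset.prod_congr rfl fun i _ => ?_
      rw [map_pow, hres i, Int.cast_pow]
    have hdN : d.natAbs ≤ N ^ P := by
      have h1 : d.natAbs ∣ (∏ i, γ i ^ k i).natAbs := by
        rw [Int.natAbs_dvd_natAbs]
        rcases hdg with h1 | h1
        · rw [h1]; exact dvd_mul_right _ _
        · rw [h1, dvd_neg]; exact dvd_mul_right _ _
      have h2 : (∏ i, γ i ^ k i).natAbs ≤ N ^ P := by
        have h3 : (∏ i, γ i ^ k i).natAbs = ∏ i, (γ i ^ k i).natAbs :=
          map_prod Int.natAbsHom _ _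
        rw [h3]
        calc ∏ i, (γ i ^ k i).natAbs ≤ ∏ i, N ^ k i := by
              apply Finset.prod_le_prod' 
              intro i _
              rw [Int.natAbs_pow]
              exact Nat.pow_le_pow_left (hγN i) _
          _ = N ^ ∑ i, k i := by rw [Finset.prod_pow_eq_pow_sum]
          _ ≤ N ^ P := Nat.pow_le_pow_right hN1 hkP
      refine (Nat.le_of_dvd ?_ h1).trans h2
      rw [Nat.pos_iff_ne_zero, Int.natAbs_ne_zero]
      exact Finset.prod_ne_zero_iff.2 fun i _ => pow_ne_zero _ (hγ i)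
    have hlI : len (∏ i, f i ^ k i) ≤ N ^ P := by
      refine (Pool.Agent.W257.len_prod_le Finset.univ (fun i => f i ^ k i) (fun i => N ^ k i)
        fun i _ => Pool.Agent.W257.len_pow_le _ _ _ (hlf i)).trans ?_
      rw [Finset.prod_pow_eq_pow_sum]
      exact Nat.pow_le_pow_right hN1 hkP
    have hDI : (∏ i, f i ^ k i).totalDegree ≤ P * (D + 1) := by
      refine (MvPolynomial.totalDegree_finsetProd _ _).trans ?_
      calc ∑ i, (f i ^ k i).totalDegree ≤ ∑ i, k i * (D + 1) := by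
            apply Finset.sum_le_sum
            intro i _
            refine (MvPolynomial.totalDegree_pow _ _).trans ?_
            exact Nat.mul_le_mul_left _ ((hfD i).trans (Nat.le_succ _))
        _ = (∑ i, k i) * (D + 1) := by rw [Finset.sum_mul]
        _ ≤ _ := Nat.mul_le_mul_right _ hkP
    have hFD' : F.totalDegree ≤ P * (D + 1) := by
      refine hFD.trans ((Nat.le_succ D).trans (Nat.le_mul_of_pos_left _ ?_))
      rw [hP]; exact Nat.succ_pos _
    have hnp : ∀ b : L, b ^ p ≠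
        π (MvPolynomial.map (Int.castRingHom ℚ) (∏ i, f i ^ k i)) / (d : L) := by
      intro b hb
      apply hNS k hk hk0 ((d : ℚ)⁻¹) b (inv_ne_zero (by exact_mod_cast hd))
      rw [hb, map_prod, map_prod, map_inv₀, map_intCast]
      simp only [map_pow]
      field_simp
    have hbd := hC1 F (∏ i, f i ^ k i) d hFD' hDI hirr hd L π hker hsurj A hQ hA
      (∏ i, t i ^ k i) (∏ i, w i ^ k i)
      (Finset.prod_ne_zero_iff.2 fun i _ => pow_ne_zero _ (ht i))
      (by
        rw [IsUnit.prod_iff]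
        exact fun i _ => (hwu i).pow _)
      (by
        rw [map_prod, map_prod, ← Finset.prod_pow, ← Finset.prod_mul_distrib]
        push_cast
        refine Finset.prod_congr rfl fun i _ => ?_
        rw [hw i, map_pow, map_pow, mul_pow, ← pow_mul, ← pow_mul, mul_comm p])
      (by
        intro hI1 ι η hη
        rcases hdg with h1 | h1
        · refine (X_pow_sub_C_irreducible_iff_of_prime hp).1 hI1
            (g : IsLocalRing.ResidueField A) ?_
          rw [hresI, h1]
          push_cast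
          field_simp
        · rcases hp.eq_two_or_odd' with h2 | h2
          · subst h2
            rw [hresI, h1] at hη
            rw [map_intCast] at hη
            have hdR' : (d : ℝ) ≠ 0 := by exact_mod_cast hd
            have hgR : (g : ℝ) ≠ 0 := by exact_mod_cast hg
            have h3 : η ^ 2 = -(g : ℝ) ^ 2 := by
              apply mul_left_cancel₀ hdR'
              rw [hη]
              push_cast
              ring
            have h4 : 0 < (g : ℝ) ^ 2 := by positivity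
            nlinarith [sq_nonneg η]
          · refine (X_pow_sub_C_irreducible_iff_of_prime hp).1 hI1
              (-g : IsLocalRing.ResidueField A) ?_
            rw [hresI, h1, h2.neg_pow]
            push_cast
            field_simp)
      ((X_pow_sub_C_irreducible_iff_of_prime hp).2 hnp) x y s hxy
      (by
        rw [map_prod, ← hds]
        exact Finset.prod_congr rfl fun i _ => map_pow _ _ _)
    refine hbd.trans ?_
    have h5 : d.natAbs * len F * len (∏ i, f i ^ k i) ≤ N ^ (2 * P + 1) := by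
      calc d.natAbs * len F * len (∏ i, f i ^ k i) ≤ N ^ P * N * N ^ P :=
            Nat.mul_le_mul (Nat.mul_le_mul hdN hlF) hlI
        _ = N ^ (2 * P + 1) := by ring
    have hC0 : (C1 * (d.natAbs * len F * len (∏ i, f i ^ k i))) ^ C1 ≤
        (C1 * N ^ (2 * P + 1)) ^ C1 := Nat.pow_le_pow_left (Nat.mul_le_mul_left _ h5) _
    refine hC0.trans ?_
    rcases Nat.eq_zero_or_pos C1 with h6 | h6
    · rw [h6]; simp
    have h7 : C1 * N ^ (2 * P + 1) ≤ ((C1 * (2 * P + 1) + C1) * N) ^ (2 * P + 1) := by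
      rw [mul_pow]
      apply Nat.mul_le_mul_right
      refine le_trans ?_ (Nat.le_self_pow (by omega) _)
      exact Nat.le_add_left _ _
    refine (Nat.pow_le_pow_left h7 _).trans ?_
    rw [← pow_mul]
    apply Nat.pow_le_pow_right
    · exact Nat.mul_pos (Nat.add_pos_right _ h6) hN1
    · rw [mul_comm]; exact Nat.le_add_right _ _
  by_cases h0 : ∃ i, MvPolynomial.eval ![x, y] (f i) = 0
  · obtain ⟨i, hi⟩ := h0
    apply key (Pi.single i 1) (fun j => ?_) ⟨i, by simp⟩ (γ i) 0 1 (hγ i) one_ne_zero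
    · rw [zero_pow hp0, mul_zero]
      apply Finset.prod_eq_zero (Finset.mem_univ i)
      rw [hi, Pi.single_eq_same, pow_one]
    · left
      rw [one_pow, mul_one, Finset.prod_eq_single i]
      · rw [Pi.single_eq_same, pow_one]
      · intro j _ hj
        rw [Pi.single_eq_of_ne hj, pow_zero]
      · intro h
        exact absurd (Finset.mem_univ i) h
    · rcases eq_or_ne j i with rfl | hj
      · rw [Pi.single_eq_same]; exact hp.one_lt
      · rw [Pi.single_eq_of_ne hj]; exact hp.pos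
  · push Not at h0
    obtain ⟨k, hk, hk0, d, s, g', hd, hg', h1, h2⟩ := pigeon p hp r S hr
      (fun i => MvPolynomial.eval ![x, y] (f i)) γ h0 hγ
      (fun i l hl hlS => val_torsion p F (f i) (g i) (h i) (a i) (hT1 i) l hl
        (hS i l hl hlS).1 (hS i l hl hlS).2.1 x y hxy (h0 i))
      (fun i l hl hlS => (hS i l hl hlS).2.2)
    exact key k hk hk0 d s g' hd hg' h1 h2

end Pool.Agent.H57.TB
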