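import Mathlib

set_option autoImplicit false

/-! The place at infinity of the curves `x ^ m - y ^ n + G = 0` with `G` of lower weight. -/

open Finset

namespace Pool.Agent.H57.TB

section Order

variable {Γ : Type*} [LinearOrderedCommGroupWithZero Γ]

lemma dom {X Y : Γ} {m n a b : ℕ} (hX : 1 < X) (h : Y ^ n ≤ X ^ m)
    (hw : n * a + m * b < m * n) : X ^ a * Y ^ b < X ^ m := by
  by_contra hcon
  rw [not_lt] at hcon
  have h1 : (X ^ m) ^ n ≤ (X ^ a * Y ^ b) ^ n := pow_le_pow_left₀ zero_le hcon _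
  have h2 : (X ^ a * Y ^ b) ^ n ≤ X ^ (n * a + m * b) := by
    have e1 : (X ^ a * Y ^ b) ^ n = X ^ (n * a) * (Y ^ n) ^ b := by
      rw [mul_pow, ← pow_mul, ← pow_mul, ← pow_mul, mul_comm a, mul_comm b]
    have e2 : X ^ (n * a + m * b) = X ^ (n * a) * (X ^ m) ^ b := by
      rw [pow_add, pow_mul X m]
    rw [e1, e2]
    exact mul_le_mul_right (pow_le_pow_left₀ zero_le h b) _
  have h3 : X ^ (n * a + m * b) < X ^ (m * n) := pow_lt_pow_right₀ hX hw
  rw [← pow_mul] at h1
  exact absurd (h1.trans h2) (not_le.2 h3)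

end Order

variable {L : Type*} [Field L] [Algebra ℚ L]

/-- The weight of a monomial. -/
def wt (m n : ℕ) (k : Fin 2 →₀ ℕ) : ℕ := n * k 0 + m * k 1

lemma pi_eq_sum (π : MvPolynomial (Fin 2) ℚ →ₐ[ℚ] L) (G : MvPolynomial (Fin 2) ℚ) :
    π G = ∑ k ∈ G.support, algebraMap ℚ L (G.coeff k) *
      (π (MvPolynomial.X 0) ^ k 0 * π (MvPolynomial.X 1) ^ k 1) := by
  conv_lhs => rw [G.as_sum, map_sum]
  apply Finset.sum_congr rfl
  intro k _
  rw [MvPolynomial.monomial_eq, map_mul, Finsupp.prod_fintype _ _ (by simp), Fin.prod_univ_two,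
    map_mul, map_pow, map_pow, MvPolynomial.algHom_C]

lemma val_rat (A : ValuationSubring L) (hQ : ∀ q : ℚ, algebraMap ℚ L q ∈ A) {x : ℚ} (hx : x ≠ 0) :
    A.valuation (algebraMap ℚ L x) = 1 := by
  apply le_antisymm
  · exact (A.valuation_le_one_iff _).2 (hQ x)
  · have h1 := (A.valuation_le_one_iff _).2 (hQ x⁻¹)
    rw [map_inv₀, map_inv₀] at h1
    have h2 : A.valuation (algebraMap ℚ L x) ≠ 0 := by
      rw [Valuation.ne_zero_iff]
      exact (map_ne_zero _).2 hx
    exact (inv_le_one₀ (zero_lt_iff.2 h2)).1 h1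

lemma val_mon (A : ValuationSubring L) (hQ : ∀ q : ℚ, algebraMap ℚ L q ∈ A) {c : ℚ} (hc : c ≠ 0)
    (x y : L) (a b : ℕ) : A.valuation (algebraMap ℚ L c * (x ^ a * y ^ b)) =
      A.valuation x ^ a * A.valuation y ^ b := by
  rw [map_mul, map_mul, map_pow, map_pow, val_rat A hQ hc, one_mul]

/-- The two coordinates at a place at infinity. -/
lemma val_pow_eq (π : MvPolynomial (Fin 2) ℚ →ₐ[ℚ] L) (m n : ℕ) (hm : 1 ≤ m) (hn : 1 ≤ n)
    (G : MvPolynomial (Fin 2) ℚ) (hG : ∀ k ∈ G.support, wt m n k < m * n)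
    (hrel : π (MvPolynomial.X 0 ^ m - MvPolynomial.X 1 ^ n + G) = 0)
    (A : ValuationSubring L) (hQ : ∀ q : ℚ, algebraMap ℚ L q ∈ A)
    (hA : ¬ (π (MvPolynomial.X 0) ∈ A ∧ π (MvPolynomial.X 1) ∈ A)) :
    1 < A.valuation (π (MvPolynomial.X 0)) ∧ 1 < A.valuation (π (MvPolynomial.X 1)) ∧
    A.valuation (π (MvPolynomial.X 0)) ^ m = A.valuation (π (MvPolynomial.X 1)) ^ n ∧
    A.valuation (π G) < A.valuation (π (MvPolynomial.X 1)) ^ n := by
  have hGs := pi_eq_sum π G
  obtain ⟨x, hx⟩ : ∃ x, x = π (MvPolynomial.X 0) := ⟨_, rfl⟩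
  obtain ⟨y, hy⟩ : ∃ y, y = π (MvPolynomial.X 1) := ⟨_, rfl⟩
  rw [map_add, map_sub, map_pow, map_pow] at hrel
  rw [← hx, ← hy] at hGs hrel hA ⊢
  rw [← A.valuation_le_one_iff, ← A.valuation_le_one_iff] at hA
  have hrel' : π G = y ^ n - x ^ m := by linear_combination hrel
  have hterm : ∀ k ∈ G.support, A.valuation (algebraMap ℚ L (G.coeff k) * (x ^ k 0 * y ^ k 1)) =
      A.valuation x ^ k 0 * A.valuation y ^ k 1 := fun k hk =>
    val_mon A hQ (MvPolynomial.mem_support_iff.1 hk) _ _ _ _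
  have hmle : ∀ {a b : A.ValueGroup} {s t : ℕ}, 1 ≤ t → a ≤ 1 → b ^ t ≤ a ^ s → b ≤ 1 := by
    intro a b s t ht ha hb
    by_contra h
    rw [not_le] at h
    have h1 : 1 < b ^ t := one_lt_pow₀ h (by omega)
    exact absurd (hb.trans (pow_le_one₀ zero_le ha)) (not_le.2 h1)
  have case1 : A.valuation y ^ n ≤ A.valuation x ^ m → 1 < A.valuation x ∧
      A.valuation (π G) < A.valuation x ^ m := by
    intro h
    have hx1 : 1 < A.valuation x := by
      by_contra hcon
      rw [not_lt] at hcon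
      exact hA ⟨hcon, hmle hn hcon h⟩
    refine ⟨hx1, ?_⟩
    rw [hGs]
    apply Valuation.map_sum_lt _ (pow_ne_zero _ (zero_lt_one.trans hx1).ne')
    intro k hk
    rw [hterm k hk]
    exact dom hx1 h (hG k hk)
  have case2 : A.valuation x ^ m ≤ A.valuation y ^ n → 1 < A.valuation y ∧
      A.valuation (π G) < A.valuation y ^ n := by
    intro h
    have hy1 : 1 < A.valuation y := by
      by_contra hcon
      rw [not_lt] at hcon
      exact hA ⟨hmle hm hcon h, hcon⟩
    refine ⟨hy1, ?_⟩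
    rw [hGs]
    apply Valuation.map_sum_lt _ (pow_ne_zero _ (zero_lt_one.trans hy1).ne')
    intro k hk
    rw [hterm k hk, mul_comm]
    have h1 := hG k hk
    rw [wt] at h1
    exact dom hy1 h (by rw [add_comm, mul_comm n m]; exact h1)
  rcases lt_trichotomy (A.valuation x ^ m) (A.valuation y ^ n) with h | h | h
  · exfalso
    have h1 := (case2 h.le).2
    rw [hrel', Valuation.map_sub_eq_of_lt_left, map_pow] at h1
    · exact lt_irrefl _ h1
    · rw [map_pow, map_pow]; exact h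
  · exact ⟨(case1 h.ge).1, (case2 h.le).1, h, (case2 h.le).2⟩
  · exfalso
    have h1 := (case1 h.le).2
    rw [hrel', Valuation.map_sub_eq_of_lt_right, map_pow] at h1
    · exact lt_irrefl _ h1
    · rw [map_pow, map_pow]; exact h

omit [Algebra ℚ L] in
/-- The function of weight `-1`. -/
lemma exists_t (m n : ℕ) (hm : 1 ≤ m) (hn : 1 ≤ n) (hmn : Nat.Coprime m n)
    (A : ValuationSubring L) (x y : L) (hx : 1 < A.valuation x) (hy : 1 < A.valuation y)
    (hxy : A.valuation (x ^ m - y ^ n) < A.valuation (y ^ n)) :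
    ∃ t : L, t ≠ 0 ∧ A.valuation t < 1 ∧ A.valuation (x * t ^ n - 1) < 1 ∧
      A.valuation (y * t ^ m - 1) < 1 := by
  have hx0 : x ≠ 0 := by rintro rfl; rw [map_zero] at hx; exact absurd hx (not_lt.2 zero_le)
  have hy0 : y ≠ 0 := by rintro rfl; rw [map_zero] at hy; exact absurd hy (not_lt.2 zero_le)
  obtain ⟨u, v, huv⟩ : ∃ u v : ℤ, (m : ℤ) * u - n * v = 1 := by
    obtain ⟨a, b, hab⟩ := Nat.isCoprime_iff_coprime.2 hmn
    exact ⟨a, -b, by linarith⟩
  obtain ⟨xu, hxu⟩ : ∃ xu : Lˣ, xu = Units.mk0 x hx0 := ⟨_, rfl⟩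
  obtain ⟨yu, hyu⟩ : ∃ yu : Lˣ, yu = Units.mk0 y hy0 := ⟨_, rfl⟩
  have hxu' : (xu : L) = x := by rw [hxu]; rfl
  have hyu' : (yu : L) = y := by rw [hyu]; rfl
  have hU : xu ^ m / yu ^ n ∈ A.principalUnitGroup := by
    rw [ValuationSubring.mem_principalUnitGroup_iff]
    have h1 : ((xu ^ m / yu ^ n : Lˣ) : L) - 1 = (x ^ m - y ^ n) / y ^ n := by
      rw [Units.val_div_eq_div_val, Units.val_pow_eq_pow_val, Units.val_pow_eq_pow_val, hxu', hyu']
      field_simp
    rw [h1, map_div₀]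
    exact (div_lt_one₀ (zero_lt_iff.2 ((Valuation.ne_zero_iff _).2 (pow_ne_zero _ hy0)))).2 hxy
  refine ⟨((xu ^ v * yu ^ (-u) : Lˣ) : L), Units.ne_zero _, ?_, ?_, ?_⟩
  · by_contra hcon
    rw [not_lt] at hcon
    have h1 : xu * (xu ^ v * yu ^ (-u)) ^ n = (xu ^ m / yu ^ n) ^ u := by
      rw [div_eq_mul_inv, mul_zpow, mul_pow, inv_zpow, ← zpow_natCast, ← zpow_natCast,
        ← zpow_natCast, ← zpow_natCast, ← zpow_mul, ← zpow_mul, ← zpow_mul, ← zpow_mul, ← mul_assoc,
        ← zpow_one_add, ← zpow_neg]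
      congr 2
      · linarith
      · ring
    have h2 : (xu ^ m / yu ^ n) ^ u ∈ A.principalUnitGroup := Subgroup.zpow_mem _ hU u
    rw [← h1] at h2
    have h3 := A.principal_units_le_units h2
    rw [ValuationSubring.mem_unitGroup_iff] at h3
    push_cast at h3
    rw [map_mul, map_pow] at h3
    have h4 : 1 < A.valuation (xu : L) := by rw [hxu']; exact hx
    have h5 : 1 ≤ (A.valuation ((xu : L) ^ v * (yu : L) ^ (-u))) ^ n := by
      apply one_le_pow₀
      push_cast at hcon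
      exact hcon
    have h6 := mul_le_mul_right h5 (A.valuation (xu : L))
    push_cast at h6
    rw [mul_one, h3] at h6
    exact absurd h4 (not_lt.2 h6)
  · have h1 : xu * (xu ^ v * yu ^ (-u)) ^ n = (xu ^ m / yu ^ n) ^ u := by
      rw [div_eq_mul_inv, mul_zpow, mul_pow, inv_zpow, ← zpow_natCast, ← zpow_natCast,
        ← zpow_natCast, ← zpow_natCast, ← zpow_mul, ← zpow_mul, ← zpow_mul, ← zpow_mul, ← mul_assoc,
        ← zpow_one_add, ← zpow_neg]
      congr 2
      · linarith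
      · ring
    have h2 : (xu ^ m / yu ^ n) ^ u ∈ A.principalUnitGroup := Subgroup.zpow_mem _ hU u
    rw [← h1, ValuationSubring.mem_principalUnitGroup_iff, Units.val_mul, Units.val_pow_eq_pow_val,
      hxu'] at h2
    exact h2
  · have h1 : yu * (xu ^ v * yu ^ (-u)) ^ m = (xu ^ m / yu ^ n) ^ v := by
      rw [div_eq_mul_inv, mul_zpow, mul_pow, inv_zpow, ← zpow_natCast, ← zpow_natCast,
        ← zpow_natCast, ← zpow_natCast, ← zpow_mul, ← zpow_mul, ← zpow_mul, ← zpow_mul,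
        mul_comm (xu ^ (v * (m : ℤ))), ← mul_assoc, ← zpow_one_add, ← zpow_neg, mul_comm]
      congr 2
      · ring
      · linarith
    have h2 : (xu ^ m / yu ^ n) ^ v ∈ A.principalUnitGroup := Subgroup.zpow_mem _ hU v
    rw [← h1, ValuationSubring.mem_principalUnitGroup_iff, Units.val_mul, Units.val_pow_eq_pow_val,
      hyu'] at h2
    exact h2

omit [Algebra ℚ L] in
lemma val_of_unit (A : ValuationSubring L) {z : L} (h : A.valuation (z - 1) < 1) :
    A.valuation z = 1 := by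
  have h1 : z = 1 + (z - 1) := by ring
  rw [h1, Valuation.map_add_eq_of_lt_left, map_one]
  rwa [map_one]

omit [Algebra ℚ L] in
lemma unit_mul (A : ValuationSubring L) {z w : L} (h : A.valuation (z - 1) < 1)
    (h' : A.valuation (w - 1) < 1) : A.valuation (z * w - 1) < 1 := by
  have h1 : z * w - 1 = z * (w - 1) + (z - 1) := by ring
  rw [h1]
  apply Valuation.map_add_lt _ _ h
  rw [map_mul, val_of_unit A h, one_mul]
  exact h'

omit [Algebra ℚ L] in
lemma unit_pow (A : ValuationSubring L) {z : L} (h : A.valuation (z - 1) < 1) (k : ℕ) :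
    A.valuation (z ^ k - 1) < 1 := by
  induction k with
  | zero => rw [pow_zero, sub_self, map_zero]; exact zero_lt_one
  | succ k ih => rw [pow_succ]; exact unit_mul A ih h

/-- A polynomial with leading form `x ^ b`. -/
lemma val_lead (π : MvPolynomial (Fin 2) ℚ →ₐ[ℚ] L) (m n : ℕ)
    (A : ValuationSubring L) (hQ : ∀ q : ℚ, algebraMap ℚ L q ∈ A) (t : L) (ht : t ≠ 0)
    (ht1 : A.valuation t < 1)
    (hx : A.valuation (π (MvPolynomial.X 0) * t ^ n - 1) < 1)
    (hy : A.valuation (π (MvPolynomial.X 1) * t ^ m - 1) < 1)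
    (b : ℕ) (g : MvPolynomial (Fin 2) ℚ) (hg : g.coeff (Finsupp.single 0 b) = 1)
    (hg' : ∀ k ∈ g.support, k ≠ Finsupp.single 0 b → wt m n k < n * b) :
    A.valuation (π g * t ^ (n * b) - 1) < 1 := by
  classical
  have hmem : Finsupp.single 0 b ∈ g.support := by
    rw [MvPolynomial.mem_support_iff, hg]
    exact one_ne_zero
  rw [pi_eq_sum π g, Finset.sum_eq_add_sum_sdiff_singleton_of_mem hmem, hg, map_one, one_mul]
  have e1 : (Finsupp.single (0 : Fin 2) b) 0 = b := by simp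
  have e2 : (Finsupp.single (0 : Fin 2) b) 1 = 0 := by simp
  rw [e1, e2, pow_zero, mul_one, add_mul]
  have e3 : ∀ R : L, π (MvPolynomial.X 0) ^ b * t ^ (n * b) + R - 1 =
      R + ((π (MvPolynomial.X 0) * t ^ n) ^ b - 1) := by
    intro R
    rw [mul_pow, ← pow_mul]
    ring
  rw [e3]
  apply Valuation.map_add_lt _ _ (unit_pow A hx b)
  rw [Finset.sum_mul]
  apply Valuation.map_sum_lt _ one_ne_zero
  intro k hk
  rw [Finset.mem_sdiff, Finset.mem_singleton] at hk
  have h1 := hg' k hk.1 hk.2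
  have h2 : algebraMap ℚ L (g.coeff k) *
      (π (MvPolynomial.X 0) ^ k 0 * π (MvPolynomial.X 1) ^ k 1) * t ^ (n * b) =
      algebraMap ℚ L (g.coeff k) * ((π (MvPolynomial.X 0) * t ^ n) ^ k 0 *
        (π (MvPolynomial.X 1) * t ^ m) ^ k 1) * t ^ (n * b - wt m n k) := by
    have h3 : n * b = n * k 0 + m * k 1 + (n * b - wt m n k) := by
      rw [wt] at h1 ⊢
      omega
    conv_lhs => rw [h3, pow_add, pow_add, pow_mul, pow_mul]
    rw [mul_pow, mul_pow]
    ring
  rw [h2, map_mul, val_mon A hQ (MvPolynomial.mem_support_iff.1 hk.1), val_of_unit A hx,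
    val_of_unit A hy, one_pow, one_pow, one_mul, one_mul, map_pow]
  exact pow_lt_one₀ zero_le ht1 (by omega)

/-- Distinct monomials of degree less than `m` in `x` have distinct weights. -/
lemma wt_inj (m n : ℕ) (hmn : Nat.Coprime m n) (k l : Fin 2 →₀ ℕ) (hm : 1 ≤ m)
    (hk : k 0 < m) (hl : l 0 < m)
    (h : wt m n k = wt m n l) : k = l := by
  rw [wt, wt] at h
  have h1 : n * k 0 ≡ n * l 0 [MOD m] := by
    have h2 : (n * k 0 + m * k 1) % m = (n * l 0 + m * l 1) % m := by rw [h]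
    rw [Nat.add_mul_mod_self_left, Nat.add_mul_mod_self_left] at h2
    exact h2
  have h2 : k 0 ≡ l 0 [MOD m] := Nat.ModEq.cancel_left_of_coprime hmn h1
  have h3 : k 0 = l 0 := Nat.ModEq.eq_of_lt_of_lt h2 hk hl
  have h4 : k 1 = l 1 := by
    rw [h3] at h
    have h5 : m * k 1 = m * l 1 := by omega
    exact Nat.eq_of_mul_eq_mul_left hm h5
  ext i
  fin_cases i
  · exact h3
  · exact h4

/-- The value of a polynomial of degree less than `m` in `x`. -/
lemma val_reduced (π : MvPolynomial (Fin 2) ℚ →ₐ[ℚ] L) (m n : ℕ) (hm : 1 ≤ m)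
    (hmn : Nat.Coprime m n)
    (A : ValuationSubring L) (hQ : ∀ q : ℚ, algebraMap ℚ L q ∈ A) (t : L) (ht : t ≠ 0)
    (ht1 : A.valuation t < 1)
    (hx : A.valuation (π (MvPolynomial.X 0) * t ^ n - 1) < 1)
    (hy : A.valuation (π (MvPolynomial.X 1) * t ^ m - 1) < 1)
    (G : MvPolynomial (Fin 2) ℚ) (hG : ∀ k ∈ G.support, k 0 < m) (hG0 : G ≠ 0) :
    ∃ k ∈ G.support, (∀ l ∈ G.support, wt m n l ≤ wt m n k) ∧
      A.valuation (π G * t ^ wt m n k) = 1 := by
  classical
  obtain ⟨k, hk, hkm⟩ := Finset.exists_max_image G.support (wt m n)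
    (MvPolynomial.support_nonempty.2 hG0)
  refine ⟨k, hk, hkm, ?_⟩
  have hterm : ∀ l ∈ G.support, A.valuation (algebraMap ℚ L (G.coeff l) *
      (π (MvPolynomial.X 0) ^ l 0 * π (MvPolynomial.X 1) ^ l 1) * t ^ wt m n k) =
      A.valuation t ^ (wt m n k - wt m n l) := by
    intro l hl
    have h1 : wt m n k = n * l 0 + m * l 1 + (wt m n k - wt m n l) := by
      have := hkm l hl
      rw [wt, wt] at this ⊢
      omega
    have h2 : algebraMap ℚ L (G.coeff l) *
      (π (MvPolynomial.X 0) ^ l 0 * π (MvPolynomial.X 1) ^ l 1) * t ^ wt m n k =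
      algebraMap ℚ L (G.coeff l) * ((π (MvPolynomial.X 0) * t ^ n) ^ l 0 *
        (π (MvPolynomial.X 1) * t ^ m) ^ l 1) * t ^ (wt m n k - wt m n l) := by
      conv_lhs => rw [h1, pow_add, pow_add, pow_mul, pow_mul]
      rw [mul_pow, mul_pow]
      ring
    rw [h2, map_mul, val_mon A hQ (MvPolynomial.mem_support_iff.1 hl), val_of_unit A hx,
      val_of_unit A hy, one_pow, one_pow, one_mul, one_mul, map_pow]
  rw [pi_eq_sum π G, Finset.sum_mul, Valuation.map_sum_eq_of_lt _ hk, hterm k hk, Nat.sub_self,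
    pow_zero]
  intro l hl
  rw [Finset.mem_sdiff, Finset.mem_singleton] at hl
  rw [hterm l hl.1, hterm k hk, Nat.sub_self, pow_zero]
  apply pow_lt_one₀ zero_le ht1
  have h3 := hkm l hl.1
  have h4 : wt m n l ≠ wt m n k := by
    intro h
    exact hl.2 (wt_inj m n hmn l k hm (hG l hl.1) (hG k hk) h)
  omega

end Pool.Agent.H57.TB
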